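import Pool.Agent.H41.KT.Defs
import Pool.Agent.H41.KS.Len

/-! KT-WM: the modified system. -/

set_option autoImplicit false

open MeasureTheory Filter Topology Set

namespace Pool.Agent.H41.KT

open Pool.Agent.H41.KS (Cl zz)
open Pool.Agent.H41.KG (blk hh Tc tc et WM)

theorem wm_out {α : ℕ → ℝ} {a M : ℕ → ℕ} {W : ℕ → ℝ} {n : ℕ} (h : ∀ i, n ∉ blk a M i) : WM α a M W n = W n := by
  unfold WM
  rw [dif_neg]
  rintro ⟨i, hi⟩
  exact h i hi

namespace WmAux

theorem mono_a {α : ℕ → ℝ} {θ : ℝ} {a M : ℕ → ℕ} (S : Sca α θ a M) {i j : ℕ} (h : i < j) : a i + M i ≤ a j := by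
  induction j, h using Nat.le_induction with
  | base => exact S.disj i
  | succ j hj ih => exact ih.trans ((Nat.le_add_right _ _).trans (S.disj j))

theorem uniq {α : ℕ → ℝ} {θ : ℝ} {a M : ℕ → ℕ} (S : Sca α θ a M) {n i j : ℕ} (hi : n ∈ blk a M i) (hj : n ∈ blk a M j) :
    i = j := by
  simp only [blk, Finset.mem_Ico] at hi hj
  rcases lt_trichotomy i j with h | h | h
  · have := mono_a S h; omega
  · exact h
  · have := mono_a S h; omega

theorem wm_in {α : ℕ → ℝ} {θ : ℝ} {a M : ℕ → ℕ} (S : Sca α θ a M) (W : ℕ → ℝ) {i n : ℕ} (hn : n ∈ blk a M i) :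
    WM α a M W n = hh α a i * (⌊α (n + 1) / hh α a i⌋ : ℤ) := by
  have hex : ∃ i, n ∈ blk a M i := ⟨i, hn⟩
  unfold WM
  rw [dif_pos hex, uniq S hex.choose_spec hn]

theorem hh_pos (α : ℕ → ℝ) (a : ℕ → ℕ) (i : ℕ) : 0 < hh α a i := Real.exp_pos _

theorem top_le {α : ℕ → ℝ} (H : Cl α) {θ : ℝ} {a M : ℕ → ℕ} (S : Sca α θ a M) {i n : ℕ} (hn : n ∈ blk a M i) :
    α (n + 1) ≤ α (a i) + 1 := by
  simp only [blk, Finset.mem_Ico] at hn
  exact (H.alpha_mono.monotone (by omega : n + 1 ≤ a i + M i)).trans (S.top i)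

theorem cell_in {α : ℕ → ℝ} (H : Cl α) {θ : ℝ} {a M : ℕ → ℕ} (S : Sca α θ a M) (W : ℕ → ℝ) {i n : ℕ} (hn : n ∈ blk a M i) :
    WM α a M W n ∈ Ioc (α n) (α (n + 1)) := by
  rw [wm_in S W hn]
  have hp := hh_pos α a i
  have h1 := Int.floor_le (α (n + 1) / hh α a i)
  have h2 := Int.lt_floor_add_one (α (n + 1) / hh α a i)
  have h3 := top_le H S hn
  have h4 := KS.long H n
  have h5 : hh α a i ≤ Real.exp (-α (n + 1)) := Real.exp_le_exp.2 (by linarith)
  rw [le_div_iff₀ hp] at h1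
  rw [div_lt_iff₀ hp] at h2
  constructor
  · nlinarith
  · nlinarith

end WmAux

open WmAux

theorem wm_cell {α : ℕ → ℝ} (H : Cl α) {θ : ℝ} {a M : ℕ → ℕ} (S : Sca α θ a M) {W : ℕ → ℝ} (hW : ∀ n, W n ∈ Ioc (α n) (α (n + 1))) (n : ℕ) :
    WM α a M W n ∈ Ioc (α n) (α (n + 1)) := by
  by_cases h : ∃ i, n ∈ blk a M i
  · obtain ⟨i, hi⟩ := h
    exact cell_in H S W hi
  · rw [wm_out (not_exists.1 h)]
    exact hW n

theorem wm_cos {α : ℕ → ℝ} (H : Cl α) {θ : ℝ} {a M : ℕ → ℕ} (S : Sca α θ a M) (W : ℕ → ℝ) {i n : ℕ} (hn : n ∈ blk a M i) {t : ℝ}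
    (ht : |t - tc α a i| ≤ et α a i) : 9 / 10 ≤ Real.cos (t * WM α a M W n) := by
  have hp := hh_pos α a i
  have hc := cell_in H S W hn
  have h3 := top_le H S hn
  have h4 := H.four_le n
  have hx := S.large i
  have hx' : (10 : ℝ) ≤ α (a i) := by
    have : (0 : ℝ) ≤ i := Nat.cast_nonneg i
    linarith
  have e1 : t * WM α a M W n = (t - tc α a i) * WM α a M W n +
      (((⌈Tc α a i * hh α a i / (2 * Real.pi)⌉₊ : ℕ) : ℤ) * ⌊α (n + 1) / hh α a i⌋ : ℤ) * (2 * Real.pi) := by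
    rw [wm_in S W hn]
    have : tc α a i * (hh α a i * (⌊α (n + 1) / hh α a i⌋ : ℤ)) =
        (((⌈Tc α a i * hh α a i / (2 * Real.pi)⌉₊ : ℕ) : ℤ) * ⌊α (n + 1) / hh α a i⌋ : ℤ) * (2 * Real.pi) := by
      unfold tc
      push_cast
      field_simp
    rw [← this]; ring
  rw [e1, Real.cos_add_int_mul_two_pi]
  have h5 : |(t - tc α a i) * WM α a M W n| ≤ 1 / 4 := by
    rw [abs_mul]
    have h6 : |WM α a M W n| ≤ α (a i) + 1 := by
      rw [abs_of_pos (by linarith [hc.1])]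
      exact hc.2.trans h3
    calc |t - tc α a i| * |WM α a M W n| ≤ et α a i * (α (a i) + 1) :=
          mul_le_mul ht h6 (abs_nonneg _) ((abs_nonneg _).trans ht)
      _ = 1 / 4 := by
          unfold et
          field_simp
  have h7 := Real.one_sub_sq_div_two_le_cos (x := (t - tc α a i) * WM α a M W n)
  have h8 : ((t - tc α a i) * WM α a M W n) ^ 2 ≤ (1 / 4) ^ 2 := by
    rw [← sq_abs]
    exact pow_le_pow_left₀ (abs_nonneg _) h5 2
  linarith

theorem tc_bd {α : ℕ → ℝ} (H : Cl α) {θ : ℝ} {a M : ℕ → ℕ} (S : Sca α θ a M) (i : ℕ) {t : ℝ} (ht : |t - tc α a i| ≤ et α a i) :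
    Tc α a i - 1 ≤ t ∧ t ≤ 2 * Tc α a i - 1 := by
  have hp := hh_pos α a i
  have hx := S.large i
  have hx' : (10 : ℝ) ≤ α (a i) := by
    have : (0 : ℝ) ≤ i := Nat.cast_nonneg i
    linarith
  have hT : 0 < Tc α a i := Real.exp_pos _
  have hpi := Real.pi_pos
  have hpi2 := Real.pi_lt_d2
  set y := Tc α a i * hh α a i / (2 * Real.pi) with hy
  have hy0 : 0 ≤ y := by positivity
  have h1 : y ≤ (⌈y⌉₊ : ℝ) := Nat.le_ceil y
  have h2 : (⌈y⌉₊ : ℝ) < y + 1 := Nat.ceil_lt_add_one hy0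
  have hTy : Tc α a i = 2 * Real.pi * y / hh α a i := by
    rw [hy]; field_simp
  have htc : tc α a i = 2 * Real.pi * (⌈y⌉₊ : ℝ) / hh α a i := rfl
  have h3 : Tc α a i ≤ tc α a i := by
    rw [hTy, htc]
    exact div_le_div_of_nonneg_right (mul_le_mul_of_nonneg_left h1 (by positivity)) hp.le
  have h4 : tc α a i ≤ Tc α a i + 2 * Real.pi / hh α a i := by
    rw [htc]
    conv_rhs => rw [hTy]
    rw [← add_div]
    refine div_le_div_of_nonneg_right ?_ hp.le
    nlinarith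
  have h5 : 2 * Real.pi / hh α a i ≤ 47 * Real.exp (α (a i)) := by
    have e1 : 2 * Real.pi / hh α a i = 2 * Real.pi * Real.exp 2 * Real.exp (α (a i)) := by
      have e0 : Real.exp (-(-(α (a i)) - 2)) = Real.exp 2 * Real.exp (α (a i)) := by
        rw [← Real.exp_add]; congr 1; ring
      unfold hh
      rw [div_eq_mul_inv, ← Real.exp_neg, e0]
      ring
    rw [e1]
    refine mul_le_mul_of_nonneg_right ?_ (Real.exp_pos _).le
    have e2 : Real.exp 2 = Real.exp 1 * Real.exp 1 := by rw [← Real.exp_add]; norm_num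
    have e3 := Real.exp_one_lt_d9
    have e4 := Real.exp_pos 1
    have e5 : Real.exp 2 ≤ 7.4 := by rw [e2]; nlinarith
    have e6 := Real.exp_pos 2
    nlinarith
  have h6 : (1024 : ℝ) ≤ Real.exp (α (a i)) := by
    have e1 : Real.exp 10 = Real.exp 1 ^ 10 := by rw [← Real.exp_nat_mul]; norm_num
    have e2 : (2 : ℝ) ≤ Real.exp 1 := by linarith [Real.exp_one_gt_d9]
    calc (1024 : ℝ) = 2 ^ 10 := by norm_num
      _ ≤ Real.exp 1 ^ 10 := pow_le_pow_left₀ (by norm_num) e2 10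
      _ = Real.exp 10 := e1.symm
      _ ≤ _ := Real.exp_le_exp.2 hx'
  have h7 : Tc α a i = Real.exp (α (a i)) * Real.exp (α (a i)) := by
    unfold Tc
    rw [← Real.exp_add]; congr 1; ring
  have h8 : et α a i ≤ 1 := by
    unfold et
    rw [div_le_one (by linarith)]
    linarith
  have h9 := abs_le.1 ht
  constructor
  · linarith [h9.1]
  · nlinarith [h9.2]

theorem wm_thin {α : ℕ → ℝ} (H : Cl α) {θ : ℝ} {a M : ℕ → ℕ} (S : Sca α θ a M) (W : ℕ → ℝ) {σ : ℝ} (hσ : 1 / 2 < σ) :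
    Summable (Set.indicator {n | W n ≠ WM α a M W n} fun n => Real.exp (-(σ * α n))) := by
  classical
  have hs := S.thin σ hσ
  have hpos : ∀ n : ℕ, 0 ≤ Set.indicator {n | W n ≠ WM α a M W n} (fun n => Real.exp (-(σ * α n))) n := by
    intro n
    exact Set.indicator_nonneg (fun _ _ => (Real.exp_pos _).le) n
  refine summable_of_sum_le (c := ∑' i, (M i : ℝ) * Real.exp (-(σ * α (a i)))) hpos fun s => ?_
  let c : ℕ → ℕ := fun n => if h : ∃ i, n ∈ blk a M i then h.choose else 0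
  let I : Finset ℕ := s.image c
  have h1 : ∑ n ∈ s, Set.indicator {n | W n ≠ WM α a M W n} (fun n => Real.exp (-(σ * α n))) n ≤
      ∑ n ∈ I.biUnion (blk a M), Real.exp (-(σ * α n)) := by
    rw [← Finset.sum_filter_add_sum_filter_not s (fun n => ∃ i, n ∈ blk a M i)]
    have z : ∑ n ∈ s with ¬ ∃ i, n ∈ blk a M i,
        Set.indicator {n | W n ≠ WM α a M W n} (fun n => Real.exp (-(σ * α n))) n = 0 := by
      refine Finset.sum_eq_zero fun n hn => ?_
      rw [Finset.mem_filter] at hn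
      rw [Set.indicator_of_notMem]
      intro hc
      exact hc (wm_out (not_exists.1 hn.2)).symm
    rw [z, add_zero]
    calc ∑ n ∈ s with ∃ i, n ∈ blk a M i,
          Set.indicator {n | W n ≠ WM α a M W n} (fun n => Real.exp (-(σ * α n))) n
        ≤ ∑ n ∈ s with ∃ i, n ∈ blk a M i, Real.exp (-(σ * α n)) :=
          Finset.sum_le_sum fun n _ => Set.indicator_le_self' (fun _ _ => (Real.exp_pos _).le) n
      _ ≤ _ := by
          refine Finset.sum_le_sum_of_subset_of_nonneg ?_ fun _ _ _ => (Real.exp_pos _).le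
          intro n hn
          rw [Finset.mem_filter] at hn
          rw [Finset.mem_biUnion]
          refine ⟨c n, Finset.mem_image_of_mem c hn.1, ?_⟩
          show n ∈ blk a M (if h : ∃ i, n ∈ blk a M i then h.choose else 0)
          rw [dif_pos hn.2]
          exact hn.2.choose_spec
  refine h1.trans ?_
  rw [Finset.sum_biUnion]
  · calc ∑ i ∈ I, ∑ n ∈ blk a M i, Real.exp (-(σ * α n))
        ≤ ∑ i ∈ I, (M i : ℝ) * Real.exp (-(σ * α (a i))) := by
          refine Finset.sum_le_sum fun i _ => ?_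
          have h2 : ∀ n ∈ blk a M i, Real.exp (-(σ * α n)) ≤ Real.exp (-(σ * α (a i))) := by
            intro n hn
            simp only [blk, Finset.mem_Ico] at hn
            have := H.alpha_mono.monotone hn.1
            exact Real.exp_le_exp.2 (by nlinarith)
          refine (Finset.sum_le_card_nsmul _ _ _ h2).trans (le_of_eq ?_)
          rw [nsmul_eq_mul]
          congr 2
          simp [blk]
      _ ≤ _ := hs.sum_le_tsum _ fun i _ => by positivity
  · intro i _ j _ hij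
    rw [Function.onFun, Finset.disjoint_left]
    intro n hi hj
    exact hij (uniq S hi hj)

end Pool.Agent.H41.KT
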