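import Pool.Agent.H41.KT.Defs
import Pool.Agent.H41.KS.Len

/-! # Project KT, stub KT-XB2: mean square of a Dirichlet polynomial with frequencies in cells (helper92) -/

set_option autoImplicit false

open MeasureTheory Filter Topology Set

namespace Pool.Agent.H41.KT

open Pool.Agent.H41.KS (Cl zz)
open Pool.Agent.H41.KG (blk hh Tc tc et WM)

theorem xbm_int_le {T u : ℝ} (hT : 1 ≤ T) : |∫ t in (1 : ℝ)..T, Real.cos (t * u)| ≤ T := by
  have h := intervalIntegral.norm_integral_le_of_norm_le_const (a := (1 : ℝ)) (b := T) (C := 1)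
    (f := fun t => Real.cos (t * u)) fun t _ => by
      rw [Real.norm_eq_abs]
      exact Real.abs_cos_le_one _
  rw [Real.norm_eq_abs, one_mul, abs_of_nonneg (by linarith : 0 ≤ T - 1)] at h
  linarith

theorem xbm_int_le' {T u : ℝ} (hu : u ≠ 0) : |∫ t in (1 : ℝ)..T, Real.cos (t * u)| ≤ 2 / |u| := by
  rw [intervalIntegral.integral_comp_mul_right (fun x => Real.cos x) hu, integral_cos, smul_eq_mul, abs_mul,
    abs_inv, ← div_eq_inv_mul]
  refine div_le_div_of_nonneg_right ?_ (abs_nonneg u)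
  have h1 := Real.abs_sin_le_one (T * u)
  have h2 := Real.abs_sin_le_one (1 * u)
  have h3 := abs_sub (Real.sin (T * u)) (Real.sin (1 * u))
  linarith

/-- the norm of the sum -/
theorem xbm_norm (s : Finset ℕ) (V : ℕ → ℝ) (hV : ∀ n ∈ s, 4 ≤ V n) (t : ℝ) :
    ‖∑ n ∈ s, zz t (V n)‖ ^ 2 =
      ∑ n ∈ s, ∑ m ∈ s, Real.exp (-(V n / 2)) * Real.exp (-(V m / 2)) * Real.cos (t * (V n - V m)) := by
  have e : ∀ n ∈ s, (zz t (V n)).re = Real.exp (-(V n / 2)) * Real.cos (t * V n) ∧
      (zz t (V n)).im = -(Real.exp (-(V n / 2)) * Real.sin (t * V n)) := by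
    intro n hn
    unfold zz
    rw [max_eq_left (hV n hn)]
    have h1 : (-((1 / 2 + t * Complex.I) * (V n : ℂ))).re = -(V n / 2) := by
      simp
      ring
    have h2 : (-((1 / 2 + t * Complex.I) * (V n : ℂ))).im = -(t * V n) := by
      simp
    rw [Complex.exp_re, Complex.exp_im, h1, h2, Real.cos_neg, Real.sin_neg]
    exact ⟨rfl, by ring⟩
  rw [← Complex.normSq_eq_norm_sq, Complex.normSq_apply, Complex.re_sum, Complex.im_sum,
    Finset.sum_congr rfl fun n hn => (e n hn).1, Finset.sum_congr rfl fun n hn => (e n hn).2,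
    Finset.sum_mul_sum, Finset.sum_mul_sum, ← Finset.sum_add_distrib]
  refine Finset.sum_congr rfl fun n _ => ?_
  rw [← Finset.sum_add_distrib]
  refine Finset.sum_congr rfl fun m _ => ?_
  rw [mul_sub, Real.cos_sub]
  ring

theorem xbm_harm (M : ℕ) : ∑ d ∈ Finset.range M, 1 / ((d - 1 : ℕ) : ℝ) ≤ 1 + Real.log M := by
  have h1 : ∑ d ∈ Finset.range M, 1 / ((d - 1 : ℕ) : ℝ) ≤ ∑ d ∈ Finset.range (M + 2), 1 / ((d - 1 : ℕ) : ℝ) :=
    Finset.sum_le_sum_of_subset_of_nonneg (Finset.range_mono (by omega)) fun _ _ _ => by positivity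
  refine h1.trans ?_
  rw [Finset.sum_range_succ', Finset.sum_range_succ']
  have h2 := harmonic_le_one_add_log M
  have h3 : ((harmonic M : ℚ) : ℝ) = ∑ d ∈ Finset.range M, 1 / ((d + 1 + 1 - 1 : ℕ) : ℝ) := by
    unfold harmonic
    push_cast
    refine Finset.sum_congr rfl fun d _ => ?_
    rw [one_div]
  rw [← h3]
  simpa using h2

/-- the bound for the pairs with difference `d` -/
noncomputable def xbb (T E : ℝ) (d : ℕ) : ℝ := (if d ≤ 1 then T else 0) + 2 * E * (1 / ((d - 1 : ℕ) : ℝ))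

theorem xbb_nonneg {T E : ℝ} (hT : 0 ≤ T) (hE : 0 ≤ E) (d : ℕ) : 0 ≤ xbb T E d := by
  unfold xbb
  have : 0 ≤ (if d ≤ 1 then T else 0) := by split_ifs <;> simp [hT]
  positivity

theorem xbb_sum {T E : ℝ} (hT : 0 ≤ T) (hE : 0 ≤ E) (M : ℕ) :
    ∑ d ∈ Finset.range M, xbb T E d ≤ 2 * T + 2 * E * (1 + Real.log M) := by
  unfold xbb
  rw [Finset.sum_add_distrib, ← Finset.mul_sum]
  refine add_le_add ?_ (mul_le_mul_of_nonneg_left (xbm_harm M) (by positivity))
  rw [← Finset.sum_filter, Finset.sum_const, nsmul_eq_mul]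
  refine mul_le_mul_of_nonneg_right ?_ hT
  have h1 : ((Finset.range M).filter (fun d => d ≤ 1)).card ≤ (Finset.range 2).card := by
    refine Finset.card_le_card fun d hd => ?_
    rw [Finset.mem_filter] at hd
    rw [Finset.mem_range]
    omega
  rw [Finset.card_range] at h1
  exact_mod_cast h1

theorem xbm_row (a M n : ℕ) (hn : n ∈ Finset.Ico a (a + M)) (b : ℕ → ℝ) (hb : ∀ d, 0 ≤ b d) :
    ∑ m ∈ Finset.Ico a (a + M), b ((n - m) + (m - n)) ≤ 2 * ∑ d ∈ Finset.range M, b d := by
  rw [Finset.mem_Ico] at hn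
  rw [← Finset.sum_fiberwise_of_maps_to (s := Finset.Ico a (a + M)) (t := Finset.range M)
    (g := fun m => (n - m) + (m - n)), Finset.mul_sum]
  · refine Finset.sum_le_sum fun d _ => ?_
    have h1 : ∑ m ∈ (Finset.Ico a (a + M)).filter (fun m => (n - m) + (m - n) = d), b ((n - m) + (m - n)) =
        ∑ m ∈ (Finset.Ico a (a + M)).filter (fun m => (n - m) + (m - n) = d), b d :=
      Finset.sum_congr rfl fun m hm => by rw [(Finset.mem_filter.1 hm).2]
    rw [h1, Finset.sum_const, nsmul_eq_mul]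
    refine mul_le_mul_of_nonneg_right ?_ (hb d)
    have h2 : ((Finset.Ico a (a + M)).filter (fun m => (n - m) + (m - n) = d)).card ≤
        ({n + d, n - d} : Finset ℕ).card := by
      refine Finset.card_le_card fun m hm => ?_
      have := (Finset.mem_filter.1 hm).2
      rw [Finset.mem_insert, Finset.mem_singleton]
      omega
    have h3 : ({n + d, n - d} : Finset ℕ).card ≤ 2 := Finset.card_le_two
    exact_mod_cast h2.trans h3
  · intro m hm
    rw [Finset.mem_Ico] at hm
    rw [Finset.mem_range]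
    omega

theorem xbm_gap {α : ℕ → ℝ} (H : Cl α) {x : ℝ} {p q : ℕ} (hpq : p ≤ q) (hq : α q ≤ x) :
    ((q : ℝ) - p) * Real.exp (-x) ≤ α q - α p := by
  induction q, hpq using Nat.le_induction with
  | base => simp
  | succ q hpq ih =>
    have h1 : α q ≤ α (q + 1) := KS.len_al_le H (Nat.le_succ q)
    have h2 := ih (h1.trans hq)
    have h3 := KS.long H q
    have h4 : Real.exp (-x) ≤ Real.exp (-α (q + 1)) := Real.exp_le_exp.2 (by linarith)
    push_cast
    nlinarith

theorem xb_ms : ∃ C : ℝ, 0 ≤ C ∧ ∀ α : ℕ → ℝ, Cl α → ∀ (a M : ℕ), 10 ≤ α a → α (a + M) ≤ α a + 1 →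
    (M : ℝ) ≤ 2 * α a * Real.exp (α a / 2) → ∀ V : ℕ → ℝ, (∀ n, V n ∈ Ioc (α n) (α (n + 1))) → ∀ T : ℝ, 1 ≤ T →
      ∫ t in (1 : ℝ)..T, ‖∑ n ∈ Finset.Ico a (a + M), zz t (V n)‖ ^ 2 ≤
        C * (T * (α a * Real.exp (-(α a / 2))) + α a ^ 2 * Real.exp (α a / 2)) := by
  refine ⟨100, by norm_num, fun α H a M ha htop hM V hV T hT => ?_⟩
  set x := α a with hx
  have hlow : ∀ n ∈ Finset.Ico a (a + M), x ≤ V n := by
    intro n hn
    have h1 : α a ≤ α n := KS.len_al_le H (Finset.mem_Ico.1 hn).1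
    have h2 := (hV n).1
    linarith
  have h4 : ∀ n ∈ Finset.Ico a (a + M), 4 ≤ V n := fun n hn => by linarith [hlow n hn]
  set E : ℝ := Real.exp (x + 1) with hE
  have hE0 : 0 < E := Real.exp_pos _
  -- the separation
  have hsep0 : ∀ n ∈ Finset.Ico a (a + M), ∀ m ∈ Finset.Ico a (a + M), m + 2 ≤ n →
      ((n - m - 1 : ℕ) : ℝ) * Real.exp (-(x + 1)) ≤ V n - V m := by
    intro n hn m hm hmn
    have h5 : α n ≤ x + 1 := (KS.len_al_le H (Finset.mem_Ico.1 hn).2.le).trans htop
    have h6 := xbm_gap H (p := m + 1) (q := n) (by omega) h5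
    have h7 : (((n - m - 1 : ℕ)) : ℝ) = (n : ℝ) - ((m + 1 : ℕ) : ℝ) := by
      rw [Nat.sub_sub, Nat.cast_sub (by omega)]
    rw [h7]
    have h8 := (hV n).1
    have h9 := (hV m).2
    linarith
  have hcos : ∀ n ∈ Finset.Ico a (a + M), ∀ m ∈ Finset.Ico a (a + M),
      |∫ t in (1 : ℝ)..T, Real.cos (t * (V n - V m))| ≤ xbb T E ((n - m) + (m - n)) := by
    intro n hn m hm
    by_cases hd : (n - m) + (m - n) ≤ 1
    · refine (xbm_int_le hT).trans ?_
      unfold xbb
      rw [if_pos hd]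
      have : 0 ≤ 2 * E * (1 / (((n - m) + (m - n) - 1 : ℕ) : ℝ)) := by positivity
      linarith
    · have hkey : (((n - m) + (m - n) - 1 : ℕ) : ℝ) * Real.exp (-(x + 1)) ≤ |V n - V m| := by
        rcases lt_or_ge m n with h | h
        · have h5 := hsep0 n hn m hm (by omega)
          rw [show (n - m) + (m - n) - 1 = n - m - 1 by omega]
          exact h5.trans (le_abs_self _)
        · have h5 := hsep0 m hm n hn (by omega)
          rw [show (n - m) + (m - n) - 1 = m - n - 1 by omega, abs_sub_comm]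
          exact h5.trans (le_abs_self _)
      have hD : (0 : ℝ) < (((n - m) + (m - n) - 1 : ℕ) : ℝ) := by
        have : 0 < (n - m) + (m - n) - 1 := by omega
        exact_mod_cast this
      have hpos : 0 < |V n - V m| := lt_of_lt_of_le (mul_pos hD (Real.exp_pos _)) hkey
      refine (xbm_int_le' (abs_pos.1 hpos)).trans ?_
      unfold xbb
      rw [if_neg hd, zero_add]
      have h6 : 2 / |V n - V m| ≤ 2 / ((((n - m) + (m - n) - 1 : ℕ) : ℝ) * Real.exp (-(x + 1))) :=
        div_le_div_of_nonneg_left (by norm_num) (mul_pos hD (Real.exp_pos _)) hkey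
      refine h6.trans (le_of_eq ?_)
      rw [Real.exp_neg, ← hE]
      field_simp
  -- the integral
  have hint : ∀ n m : ℕ, IntervalIntegrable (fun t : ℝ => Real.exp (-(V n / 2)) * Real.exp (-(V m / 2)) *
      Real.cos (t * (V n - V m))) volume 1 T := fun n m =>
    Continuous.intervalIntegrable (by fun_prop) _ _
  have h10 : ∫ t in (1 : ℝ)..T, ‖∑ n ∈ Finset.Ico a (a + M), zz t (V n)‖ ^ 2 =
      ∑ n ∈ Finset.Ico a (a + M), ∑ m ∈ Finset.Ico a (a + M),
        Real.exp (-(V n / 2)) * Real.exp (-(V m / 2)) * ∫ t in (1 : ℝ)..T, Real.cos (t * (V n - V m)) := by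
    rw [intervalIntegral.integral_congr (g := fun t => ∑ n ∈ Finset.Ico a (a + M), ∑ m ∈ Finset.Ico a (a + M),
      Real.exp (-(V n / 2)) * Real.exp (-(V m / 2)) * Real.cos (t * (V n - V m)))
      fun t _ => xbm_norm _ V h4 t]
    rw [intervalIntegral.integral_finsetSum fun n _ =>
      Continuous.intervalIntegrable (by fun_prop) _ _]
    refine Finset.sum_congr rfl fun n _ => ?_
    rw [intervalIntegral.integral_finsetSum fun m _ => hint n m]
    refine Finset.sum_congr rfl fun m _ => ?_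
    rw [intervalIntegral.integral_const_mul]
  have h11 : ∀ n ∈ Finset.Ico a (a + M), ∑ m ∈ Finset.Ico a (a + M),
      Real.exp (-(V n / 2)) * Real.exp (-(V m / 2)) * ∫ t in (1 : ℝ)..T, Real.cos (t * (V n - V m)) ≤
      Real.exp (-x) * (2 * (2 * T + 2 * E * (1 + Real.log M))) := by
    intro n hn
    have h12 : ∀ m ∈ Finset.Ico a (a + M),
        Real.exp (-(V n / 2)) * Real.exp (-(V m / 2)) * ∫ t in (1 : ℝ)..T, Real.cos (t * (V n - V m)) ≤
        Real.exp (-x) * xbb T E ((n - m) + (m - n)) := by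
      intro m hm
      have h13 : Real.exp (-(V n / 2)) * Real.exp (-(V m / 2)) ≤ Real.exp (-x) := by
        rw [← Real.exp_add]
        refine Real.exp_le_exp.2 ?_
        linarith [hlow n hn, hlow m hm]
      have h14 : 0 ≤ Real.exp (-(V n / 2)) * Real.exp (-(V m / 2)) := by positivity
      calc Real.exp (-(V n / 2)) * Real.exp (-(V m / 2)) * ∫ t in (1 : ℝ)..T, Real.cos (t * (V n - V m))
          ≤ Real.exp (-(V n / 2)) * Real.exp (-(V m / 2)) * xbb T E ((n - m) + (m - n)) :=
            mul_le_mul_of_nonneg_left ((le_abs_self _).trans (hcos n hn m hm)) h14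
        _ ≤ _ := mul_le_mul_of_nonneg_right h13 (xbb_nonneg (by linarith) hE0.le _)
    refine (Finset.sum_le_sum h12).trans ?_
    rw [← Finset.mul_sum]
    refine mul_le_mul_of_nonneg_left ?_ (Real.exp_pos _).le
    refine (xbm_row a M n hn _ fun d => xbb_nonneg (by linarith) hE0.le d).trans ?_
    exact mul_le_mul_of_nonneg_left (xbb_sum (by linarith) hE0.le M) (by norm_num)
  have h15 : ∫ t in (1 : ℝ)..T, ‖∑ n ∈ Finset.Ico a (a + M), zz t (V n)‖ ^ 2 ≤
      M * (Real.exp (-x) * (2 * (2 * T + 2 * E * (1 + Real.log M)))) := by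
    rw [h10]
    refine (Finset.sum_le_sum h11).trans (le_of_eq ?_)
    rw [Finset.sum_const, Nat.card_Ico, nsmul_eq_mul, Nat.add_sub_cancel_left]
  refine h15.trans ?_
  rcases Nat.eq_zero_or_pos M with hM0 | hM0
  · rw [hM0]
    simp only [Nat.cast_zero, zero_mul]
    have : 0 ≤ x := by linarith
    positivity
  have hM1 : (0 : ℝ) < M := by exact_mod_cast hM0
  have hx0 : 0 < x := by linarith
  have hlog : 1 + Real.log M ≤ 2 * x := by
    have h16 : Real.log M ≤ Real.log (2 * x * Real.exp (x / 2)) := Real.log_le_log hM1 hM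
    rw [Real.log_mul (by positivity) (by positivity), Real.log_exp] at h16
    have h17 : Real.log (2 * x) ≤ 2 * x / 2 - 1 + 1 := by
      have h18 := Real.log_le_sub_one_of_pos (show 0 < 2 * x / 2 by positivity)
      have h19 : Real.log (2 * x) = Real.log 2 + Real.log (2 * x / 2) := by
        rw [← Real.log_mul (by norm_num) (by positivity)]
        congr 1
        ring
      have h20 := Real.log_two_lt_d9
      rw [h19]
      linarith
    linarith
  have he : Real.exp 1 ≤ 3 := by have := Real.exp_one_lt_d9; linarith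
  have hEe : Real.exp (-x) * E = Real.exp 1 := by
    rw [hE, ← Real.exp_add]
    congr 1
    ring
  have h21 : (M : ℝ) * (Real.exp (-x) * (2 * (2 * T + 2 * E * (1 + Real.log M)))) =
      4 * T * (M * Real.exp (-x)) + 4 * (Real.exp (-x) * E) * (M * (1 + Real.log M)) := by ring
  rw [h21, hEe]
  have h22 : (M : ℝ) * Real.exp (-x) ≤ 2 * x * Real.exp (-(x / 2)) := by
    calc (M : ℝ) * Real.exp (-x) ≤ 2 * x * Real.exp (x / 2) * Real.exp (-x) :=
          mul_le_mul_of_nonneg_right hM (Real.exp_pos _).le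
      _ = 2 * x * Real.exp (-(x / 2)) := by
          rw [mul_assoc, ← Real.exp_add]
          congr 2
          ring
  have h23 : (M : ℝ) * (1 + Real.log M) ≤ 4 * (x ^ 2 * Real.exp (x / 2)) := by
    calc (M : ℝ) * (1 + Real.log M) ≤ M * (2 * x) := mul_le_mul_of_nonneg_left hlog hM1.le
      _ ≤ 2 * x * Real.exp (x / 2) * (2 * x) := mul_le_mul_of_nonneg_right hM (by positivity)
      _ = _ := by ring
  have h24 : 4 * T * (M * Real.exp (-x)) ≤ 4 * T * (2 * x * Real.exp (-(x / 2))) :=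
    mul_le_mul_of_nonneg_left h22 (by linarith)
  have h25 : 4 * Real.exp 1 * (M * (1 + Real.log M)) ≤ 4 * 3 * (4 * (x ^ 2 * Real.exp (x / 2))) := by
    have h26 : 0 ≤ x ^ 2 * Real.exp (x / 2) := by positivity
    calc 4 * Real.exp 1 * (M * (1 + Real.log M)) ≤ 4 * Real.exp 1 * (4 * (x ^ 2 * Real.exp (x / 2))) :=
          mul_le_mul_of_nonneg_left h23 (by positivity)
      _ ≤ 4 * 3 * (4 * (x ^ 2 * Real.exp (x / 2))) :=
          mul_le_mul_of_nonneg_right (by linarith) (by positivity)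
  have h27 : 0 ≤ T * (x * Real.exp (-(x / 2))) := by positivity
  have h28 : 0 ≤ x ^ 2 * Real.exp (x / 2) := by positivity
  nlinarith

end Pool.Agent.H41.KT
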