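import Pool.Agent.H41.KT.Xbp
import Pool.Agent.H41.KT.Xbm

/-! # Project KT: the difference of the linear terms of two systems in one block, mean square -/

set_option autoImplicit false

open MeasureTheory Filter Topology Set

namespace Pool.Agent.H41.KT

open Pool.Agent.H41.KS (Cl zz)
open Pool.Agent.H41.KG (blk)

theorem xb_cont_zz (w : ℝ) : Continuous fun t : ℝ => zz t w := by
  unfold zz
  fun_prop

theorem xb_cont_sum (s : Finset ℕ) (V : ℕ → ℝ) : Continuous fun t : ℝ => ∑ n ∈ s, zz t (V n) :=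
  continuous_finsetSum _ fun n _ => xb_cont_zz (V n)

theorem xb_cont_XB (s : Finset ℕ) (W W' : ℕ → ℝ) : Continuous fun t : ℝ => XB s W W' t := by
  unfold XB
  exact continuous_finsetSum _ fun n _ =>
    (Complex.continuous_re.comp (xb_cont_zz (W' n))).sub (Complex.continuous_re.comp (xb_cont_zz (W n)))

theorem xb_le_two (s : Finset ℕ) (W W' : ℕ → ℝ) (t : ℝ) :
    XB s W W' t ^ 2 ≤ 2 * ‖∑ n ∈ s, zz t (W' n)‖ ^ 2 + 2 * ‖∑ n ∈ s, zz t (W n)‖ ^ 2 := by
  have h : XB s W W' t = (∑ n ∈ s, zz t (W' n)).re - (∑ n ∈ s, zz t (W n)).re := by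
    unfold XB
    rw [Finset.sum_sub_distrib, Complex.re_sum, Complex.re_sum]
  have h1 := Complex.abs_re_le_norm (∑ n ∈ s, zz t (W' n))
  have h2 := Complex.abs_re_le_norm (∑ n ∈ s, zz t (W n))
  rw [h]
  have h3 : ((∑ n ∈ s, zz t (W' n)).re) ^ 2 ≤ ‖∑ n ∈ s, zz t (W' n)‖ ^ 2 := by
    rw [← sq_abs]
    exact pow_le_pow_left₀ (abs_nonneg _) h1 2
  have h4 : ((∑ n ∈ s, zz t (W n)).re) ^ 2 ≤ ‖∑ n ∈ s, zz t (W n)‖ ^ 2 := by
    rw [← sq_abs]
    exact pow_le_pow_left₀ (abs_nonneg _) h2 2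
  nlinarith [sq_nonneg ((∑ n ∈ s, zz t (W' n)).re + (∑ n ∈ s, zz t (W n)).re)]

theorem xb_sq : ∃ C : ℝ, 0 ≤ C ∧ ∀ α : ℕ → ℝ, Cl α → ∀ (a M : ℕ), 10 ≤ α a → α (a + M) ≤ α a + 1 →
    (M : ℝ) ≤ 2 * α a * Real.exp (α a / 2) → ∀ W W' : ℕ → ℝ, (∀ n, W n ∈ Ioc (α n) (α (n + 1))) →
    (∀ n, W' n ∈ Ioc (α n) (α (n + 1))) → ∀ T : ℝ, 1 ≤ T →
      ∫ t in (1 : ℝ)..T, XB (Finset.Ico a (a + M)) W W' t ^ 2 ≤ C * (T * (α a ^ 4 * Real.exp (-(α a / 5)))) := by
  obtain ⟨C, hC, hms⟩ := xb_ms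
  refine ⟨36 + 8 * C, by positivity, fun α H a M ha ht hM W W' hW hW' T hT => ?_⟩
  set x := α a with hx
  set s := Finset.Ico a (a + M) with hs
  have hx0 : 0 < x := by linarith
  have hint : ∀ (f : ℝ → ℝ), Continuous f → IntervalIntegrable f volume 1 T :=
    fun f hf => hf.intervalIntegrable _ _
  have hXc : Continuous fun t : ℝ => XB s W W' t ^ 2 := (xb_cont_XB s W W').pow 2
  have hE : 0 < Real.exp (-(x / 5)) := Real.exp_pos _
  have hx4 : 0 ≤ x ^ 4 := by positivity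
  rcases le_or_gt T (Real.exp (9 * x / 10)) with hTx | hTx
  · -- small `T`
    have hpt : ∀ t ∈ Icc (1 : ℝ) T, XB s W W' t ^ 2 ≤ 36 * (x ^ 4 * Real.exp (-(x / 5))) := by
      intro t ht'
      have h1 := xb_pt H ha ht hM hW hW' ht'.1
      have h2 : t * Real.exp (-x) ≤ Real.exp (-(x / 10)) := by
        calc t * Real.exp (-x) ≤ Real.exp (9 * x / 10) * Real.exp (-x) :=
              mul_le_mul_of_nonneg_right (ht'.2.trans hTx) (Real.exp_pos _).le
          _ = Real.exp (-(x / 10)) := by rw [← Real.exp_add]; congr 1; ring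
      have h3 : |XB s W W' t| ≤ 6 * (x ^ 2 * Real.exp (-(x / 10))) := by
        refine h1.trans ?_
        have : x ^ 2 * t * Real.exp (-x) = x ^ 2 * (t * Real.exp (-x)) := by ring
        rw [this]
        exact mul_le_mul_of_nonneg_left (mul_le_mul_of_nonneg_left h2 (by positivity)) (by norm_num)
      have h4 : Real.exp (-(x / 10)) ^ 2 = Real.exp (-(x / 5)) := by
        rw [← Real.exp_nat_mul]; congr 1; push_cast; ring
      calc XB s W W' t ^ 2 = |XB s W W' t| ^ 2 := (sq_abs _).symm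
        _ ≤ (6 * (x ^ 2 * Real.exp (-(x / 10)))) ^ 2 := pow_le_pow_left₀ (abs_nonneg _) h3 2
        _ = 36 * (x ^ 4 * Real.exp (-(x / 10)) ^ 2) := by ring
        _ = _ := by rw [h4]
    calc ∫ t in (1 : ℝ)..T, XB s W W' t ^ 2
        ≤ ∫ _t in (1 : ℝ)..T, 36 * (x ^ 4 * Real.exp (-(x / 5))) :=
          intervalIntegral.integral_mono_on hT (hint _ hXc) (hint _ continuous_const) hpt
      _ = (T - 1) * (36 * (x ^ 4 * Real.exp (-(x / 5)))) := by
          rw [intervalIntegral.integral_const, smul_eq_mul]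
      _ ≤ T * (36 * (x ^ 4 * Real.exp (-(x / 5)))) :=
          mul_le_mul_of_nonneg_right (by linarith) (by positivity)
      _ ≤ (36 + 8 * C) * (T * (x ^ 4 * Real.exp (-(x / 5)))) := by
          have h5 : 0 ≤ C * (T * (x ^ 4 * Real.exp (-(x / 5)))) := by positivity
          nlinarith
  · -- large `T`
    have h1 := hms α H a M ha ht hM W hW T hT
    have h2 := hms α H a M ha ht hM W' hW' T hT
    have hc1 : Continuous fun t : ℝ => ‖∑ n ∈ s, zz t (W n)‖ ^ 2 := (xb_cont_sum s W).norm.pow 2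
    have hc2 : Continuous fun t : ℝ => ‖∑ n ∈ s, zz t (W' n)‖ ^ 2 := (xb_cont_sum s W').norm.pow 2
    have h3 : ∫ t in (1 : ℝ)..T, XB s W W' t ^ 2 ≤
        2 * (∫ t in (1 : ℝ)..T, ‖∑ n ∈ s, zz t (W' n)‖ ^ 2) +
          2 * ∫ t in (1 : ℝ)..T, ‖∑ n ∈ s, zz t (W n)‖ ^ 2 := by
      rw [← intervalIntegral.integral_const_mul, ← intervalIntegral.integral_const_mul,
        ← intervalIntegral.integral_add (hint _ (hc2.const_mul 2)) (hint _ (hc1.const_mul 2))]
      exact intervalIntegral.integral_mono_on hT (hint _ hXc)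
        (hint _ ((hc2.const_mul 2).add (hc1.const_mul 2))) fun t _ => xb_le_two s W W' t
    have h4 : x * Real.exp (-(x / 2)) ≤ x ^ 4 * Real.exp (-(x / 5)) := by
      apply mul_le_mul _ (Real.exp_le_exp.2 (by linarith)) (Real.exp_pos _).le hx4
      calc x = x ^ 1 := (pow_one x).symm
        _ ≤ x ^ 4 := pow_le_pow_right₀ (by linarith) (by norm_num)
    have h5 : x ^ 2 * Real.exp (x / 2) ≤ T * (x ^ 4 * Real.exp (-(x / 5))) := by
      have h6 : Real.exp (x / 2) ≤ T * Real.exp (-(x / 5)) := by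
        calc Real.exp (x / 2) ≤ Real.exp (9 * x / 10) * Real.exp (-(x / 5)) := by
              rw [← Real.exp_add]; exact Real.exp_le_exp.2 (by linarith)
          _ ≤ T * Real.exp (-(x / 5)) := mul_le_mul_of_nonneg_right hTx.le hE.le
      have h7 : x ^ 2 ≤ x ^ 4 := pow_le_pow_right₀ (by linarith) (by norm_num)
      calc x ^ 2 * Real.exp (x / 2) ≤ x ^ 4 * (T * Real.exp (-(x / 5))) :=
            mul_le_mul h7 h6 (Real.exp_pos _).le hx4
        _ = _ := by ring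
    have h8 : C * (T * (x * Real.exp (-(x / 2))) + x ^ 2 * Real.exp (x / 2)) ≤
        C * (2 * (T * (x ^ 4 * Real.exp (-(x / 5))))) := by
      apply mul_le_mul_of_nonneg_left _ hC
      have h9 : T * (x * Real.exp (-(x / 2))) ≤ T * (x ^ 4 * Real.exp (-(x / 5))) :=
        mul_le_mul_of_nonneg_left h4 (by linarith)
      linarith
    have h10 : 0 ≤ T * (x ^ 4 * Real.exp (-(x / 5))) := by positivity
    nlinarith
end Pool.Agent.H41.KT
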