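import Pool.Agent.H41.KT.Sc
import Pool.Agent.H41.KT.Wm
import Pool.Agent.H41.KT.Xb
import Pool.Agent.H41.KG.FinD

/-! # Project KT: the parts -/
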