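import Pool.Agent.H41.KG.Defs

/-! # Project KT: bounds for the first moments do not bound the higher moments. Definitions. -/

set_option autoImplicit false

open MeasureTheory Filter Topology Set

namespace Pool.Agent.H41.KT

open Pool.Agent.H41.KS (Cl zz)
open Pool.Agent.H41.KG (blk)

/-- very sparse blocks of cells; the block `i` has about `θ √x log x` cells near `x = exp (α (a i))` -/
structure Sca (α : ℕ → ℝ) (θ : ℝ) (a M : ℕ → ℕ) : Prop where
  large : ∀ i : ℕ, (i : ℝ) + 10 ≤ α (a i)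
  slow : ∀ i : ℕ, ((i : ℝ) + 1) ^ 4 ≤ α (a i)
  ge : ∀ i, θ * α (a i) * Real.exp (α (a i) / 2) ≤ M i
  le : ∀ i, (M i : ℝ) ≤ 2 * θ * α (a i) * Real.exp (α (a i) / 2)
  next : ∀ i, 6 * α (a i) + 10 ≤ α (a (i + 1))
  disj : ∀ i, a i + M i ≤ a (i + 1)
  prev : ∀ i, (∑ l ∈ Finset.range i, (M l : ℝ)) ^ 2 ≤ α (a i)
  sparse : ∀ i : ℕ, ∑ l ∈ Finset.range i, α (a l) ≤ Real.log (α (a i))
  top : ∀ i, α (a i + M i) ≤ α (a i) + 1
  thin : ∀ σ : ℝ, 1 / 2 < σ → Summable fun i => (M i : ℝ) * Real.exp (-(σ * α (a i)))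

/-- the difference of the linear terms of two systems in one block -/
noncomputable def XB (s : Finset ℕ) (W W' : ℕ → ℝ) (t : ℝ) : ℝ := ∑ n ∈ s, ((zz t (W' n)).re - (zz t (W n)).re)

end Pool.Agent.H41.KT
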