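import Pool.Agent.H41.KT.All

/-! # Project KT: the first moments -/

set_option autoImplicit false

open MeasureTheory Filter Topology Set

namespace Pool.Agent.H41.KT

open Pool.Agent.H41.BC (g tr NN q1)
open Pool.Agent.H41.KS (Cl lw Pr zz m1 m2 e2 ph ff EE)
open Pool.Agent.H41.KG (blk hh Tc tc et WM YY yb_log log_line ff_ne line_cont)

attribute [local irreducible] YY ff

variable {α : ℕ → ℝ} {θ : ℝ} {a M : ℕ → ℕ}

lemma zz_half (H : Cl α) {n : ℕ} {w : ℝ} (hw : w ∈ Ioc (α n) (α (n + 1))) (t : ℝ) :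
    ‖zz t w‖ ≤ Real.exp (-(α n / 2)) := (KS.zz_le H n t hw).2

lemma cell_diff (H : Cl α) {n : ℕ} {w w' : ℝ} (hw : w ∈ Ioc (α n) (α (n + 1))) (hw' : w' ∈ Ioc (α n) (α (n + 1)))
    (t : ℝ) : |YY α n t w' - YY α n t w - ((zz t w').re - (zz t w).re)| ≤ 2 * Real.exp (-α n) := by
  have h1 := abs_le.1 (yb_log (KS.zz_norm t w))
  have h2 := abs_le.1 (yb_log (KS.zz_norm t w'))
  have e : Real.exp (-(α n / 2)) ^ 2 = Real.exp (-α n) := by rw [← Real.exp_nat_mul]; congr 1; push_cast; ring
  have h3 : ‖zz t w‖ ^ 2 ≤ Real.exp (-α n) := by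
    rw [← e]; exact pow_le_pow_left₀ (norm_nonneg _) (zz_half H hw t) 2
  have h4 : ‖zz t w'‖ ^ 2 ≤ Real.exp (-α n) := by
    rw [← e]; exact pow_le_pow_left₀ (norm_nonneg _) (zz_half H hw' t) 2
  unfold YY
  rw [abs_le]
  constructor <;> linarith [h1.1, h1.2, h2.1, h2.2]

lemma xb_triv (H : Cl α) (S : Sca α θ a M) {W W' : ℕ → ℝ} (hW : ∀ n, W n ∈ Ioc (α n) (α (n + 1)))
    (hW' : ∀ n, W' n ∈ Ioc (α n) (α (n + 1))) (l : ℕ) (t : ℝ) :
    |XB (blk a M l) W W' t| ≤ 4 * θ * α (a l) := by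
  unfold XB
  refine (Finset.abs_sum_le_sum_abs _ _).trans ?_
  have h1 : ∀ n ∈ blk a M l, |(zz t (W' n)).re - (zz t (W n)).re| ≤ 2 * Real.exp (-(α (a l) / 2)) := by
    intro n hn
    have hn' := (Finset.mem_Ico.1 hn).1
    have h2 : Real.exp (-(α n / 2)) ≤ Real.exp (-(α (a l) / 2)) :=
      Real.exp_le_exp.2 (by linarith [H.alpha_mono.monotone hn'])
    have h3 := abs_le.1 ((Complex.abs_re_le_norm (zz t (W n))).trans ((zz_half H (hW n) t).trans h2))
    have h4 := abs_le.1 ((Complex.abs_re_le_norm (zz t (W' n))).trans ((zz_half H (hW' n) t).trans h2))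
    rw [abs_le]
    constructor <;> linarith [h3.1, h3.2, h4.1, h4.2]
  refine (Finset.sum_le_sum h1).trans ?_
  rw [Finset.sum_const, nsmul_eq_mul]
  have hcard : (blk a M l).card = M l := by simp [blk]
  rw [hcard]
  calc (M l : ℝ) * (2 * Real.exp (-(α (a l) / 2))) ≤
        (2 * θ * α (a l) * Real.exp (α (a l) / 2)) * (2 * Real.exp (-(α (a l) / 2))) :=
        mul_le_mul_of_nonneg_right (S.le l) (by positivity)
    _ = 4 * θ * α (a l) * (Real.exp (α (a l) / 2) * Real.exp (-(α (a l) / 2))) := by ring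
    _ = _ := by rw [← Real.exp_add]; simp

/-- a sum of a function which vanishes outside the blocks -/
lemma sum_blocks (S : Sca α θ a M) {D : ℕ → ℝ} (hD : ∀ n, (∀ i, n ∉ blk a M i) → D n = 0) (i : ℕ) :
    ∑ n ∈ Finset.range (a i), D n = ∑ l ∈ Finset.range i, ∑ n ∈ blk a M l, D n := by
  have hmono : Monotone a := monotone_nat_of_le_succ fun i => le_trans (Nat.le_add_right _ _) (S.disj i)
  induction i with
  | zero =>
    rw [Finset.sum_range_zero]
    refine Finset.sum_eq_zero fun n hn => hD n fun l hl => ?_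
    have h1 := hmono (Nat.zero_le l)
    have h2 := (Finset.mem_Ico.1 hl).1
    have h3 := Finset.mem_range.1 hn
    omega
  | succ i ih =>
    rw [Finset.sum_range_succ, ← ih, Finset.range_eq_Ico, Finset.range_eq_Ico,
      ← Finset.sum_Ico_consecutive D (Nat.zero_le (a i)) (hmono (Nat.le_succ i)),
      ← Finset.sum_Ico_consecutive D (Nat.le_add_right (a i) (M i)) (S.disj i)]
    have h0 : ∑ n ∈ Finset.Ico (a i + M i) (a (i + 1)), D n = 0 := by
      refine Finset.sum_eq_zero fun n hn => hD n fun l hl => ?_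
      have h2 := Finset.mem_Ico.1 hl
      have h3 := Finset.mem_Ico.1 hn
      rcases lt_trichotomy l i with h7 | h7 | h7
      · have h8 : a (l + 1) ≤ a i := hmono h7
        have h9 := S.disj l
        omega
      · subst h7; omega
      · have h8 : a (i + 1) ≤ a l := hmono h7
        omega
    rw [h0, add_zero]
    rfl

/-- comparison of the two systems on the line -/
theorem line_comp (H : Cl α) (S : Sca α θ a M) : ∃ B : ℝ, 0 ≤ B ∧ ∀ W : ℕ → ℝ, (∀ n, W n ∈ Ioc (α n) (α (n + 1))) →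
    ∀ (i : ℕ) (t : ℝ), 1 ≤ t → 3 * Real.log t ≤ α (a (i + 1)) →
      |Real.log ‖ff α (WM α a M W) (1 / 2 + t * Complex.I)‖ - Real.log ‖ff α W (1 / 2 + t * Complex.I)‖ -
        XB (blk a M i) W (WM α a M W) t| ≤ 4 * θ * ∑ l ∈ Finset.range i, α (a l) + B := by
  obtain ⟨C, hC0, hC⟩ := log_line
  have hg0 : 0 < g (α 0) := Pool.Agent.H41.BC.g_pos (by linarith [H.four_le 0])
  have hth := S.thin 1 (by norm_num)
  set Q : ℝ := ∑' i, (M i : ℝ) * Real.exp (-(1 * α (a i))) with hQ
  have hQ0 : 0 ≤ Q := tsum_nonneg fun i => by positivity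
  refine ⟨2 * (2 * g (α 0) + C) + 2 * Q, by positivity, fun W hW i t ht hlog => ?_⟩
  have hcell := wm_cell H S hW
  have hre : t * Real.exp (-(α (a (i + 1)) / 2)) ≤ 1 := by
    have h1 : Real.exp (-(α (a (i + 1)) / 2)) ≤ Real.exp (-Real.log t) :=
      Real.exp_le_exp.2 (by linarith [Real.log_nonneg ht])
    calc t * Real.exp (-(α (a (i + 1)) / 2)) ≤ t * Real.exp (-Real.log t) :=
          mul_le_mul_of_nonneg_left h1 (by linarith)
      _ = 1 := by rw [Real.exp_neg, Real.exp_log (by linarith)]; exact mul_inv_cancel₀ (by linarith)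
  have hre' : C * (t * Real.exp (-(α (a (i + 1)) / 2))) ≤ C := by
    calc C * (t * Real.exp (-(α (a (i + 1)) / 2))) ≤ C * 1 := mul_le_mul_of_nonneg_left hre hC0
      _ = C := mul_one C
  have h1 := abs_le.1 (hC α H (WM α a M W) hcell t (a (i + 1)) ht)
  have h2 := abs_le.1 (hC α H W hW t (a (i + 1)) ht)
  set D : ℕ → ℝ := fun n => YY α n t (WM α a M W n) - YY α n t (W n) with hD
  have hD0 : ∀ n, (∀ i, n ∉ blk a M i) → D n = 0 := by
    intro n hn
    simp only [hD]
    rw [wm_out hn, sub_self]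
  have hsum := sum_blocks S hD0 (i + 1)
  have hsumD : ∑ n ∈ Finset.range (a (i + 1)), D n = ∑ n ∈ Finset.range (a (i + 1)), YY α n t (WM α a M W n) -
      ∑ n ∈ Finset.range (a (i + 1)), YY α n t (W n) := by
    simp only [hD]
    rw [Finset.sum_sub_distrib]
  have hblk : ∀ l, |∑ n ∈ blk a M l, D n - XB (blk a M l) W (WM α a M W) t| ≤ 2 * (M l * Real.exp (-(1 * α (a l)))) := by
    intro l
    unfold XB
    rw [← Finset.sum_sub_distrib]
    refine (Finset.abs_sum_le_sum_abs _ _).trans ?_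
    have h3 : ∀ n ∈ blk a M l, |D n - ((zz t (WM α a M W n)).re - (zz t (W n)).re)| ≤ 2 * Real.exp (-(1 * α (a l))) := by
      intro n hn
      refine (cell_diff H (hW n) (hcell n) t).trans ?_
      have hn' := (Finset.mem_Ico.1 hn).1
      exact mul_le_mul_of_nonneg_left (Real.exp_le_exp.2 (by linarith [H.alpha_mono.monotone hn'])) (by norm_num)
    refine (Finset.sum_le_sum h3).trans ?_
    rw [Finset.sum_const, nsmul_eq_mul]
    have hcard : (blk a M l).card = M l := by simp [blk]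
    rw [hcard]
    exact le_of_eq (by ring)
  have hfin : ∑ l ∈ Finset.range (i + 1), (M l * Real.exp (-(1 * α (a l)))) ≤ Q :=
    hth.sum_le_tsum _ fun l _ => by positivity
  have hup : |∑ l ∈ Finset.range (i + 1), ∑ n ∈ blk a M l, D n - XB (blk a M i) W (WM α a M W) t| ≤
      4 * θ * ∑ l ∈ Finset.range i, α (a l) + 2 * Q := by
    have h4 : ∑ l ∈ Finset.range (i + 1), ∑ n ∈ blk a M l, D n - XB (blk a M i) W (WM α a M W) t =
        ∑ l ∈ Finset.range (i + 1), (∑ n ∈ blk a M l, D n - XB (blk a M l) W (WM α a M W) t) +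
          ∑ l ∈ Finset.range i, XB (blk a M l) W (WM α a M W) t := by
      rw [Finset.sum_sub_distrib, Finset.sum_range_succ (fun l => XB (blk a M l) W (WM α a M W) t)]
      ring
    have h5 : |∑ l ∈ Finset.range i, XB (blk a M l) W (WM α a M W) t| ≤ 4 * θ * ∑ l ∈ Finset.range i, α (a l) := by
      rw [Finset.mul_sum]
      exact (Finset.abs_sum_le_sum_abs _ _).trans (Finset.sum_le_sum fun l _ => xb_triv H S hW hcell l t)
    have h6 : |∑ l ∈ Finset.range (i + 1), (∑ n ∈ blk a M l, D n - XB (blk a M l) W (WM α a M W) t)| ≤ 2 * Q := by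
      refine (Finset.abs_sum_le_sum_abs _ _).trans ((Finset.sum_le_sum fun l _ => hblk l).trans ?_)
      rw [← Finset.mul_sum]
      linarith
    rw [h4]
    refine (abs_add_le _ _).trans ?_
    linarith
  rw [← hsum, hsumD, abs_le] at hup
  rw [abs_le]
  constructor <;> linarith [h1.1, h1.2, h2.1, h2.2, hup.1, hup.2]

lemma xb_cont (s : Finset ℕ) (W W' : ℕ → ℝ) : Continuous (XB s W W') := by
  unfold XB zz
  fun_prop

/-- the influence of a block which is not too small -/
theorem case_b (H : Cl α) (S : Sca α θ a M) (hθ1 : θ ≤ 1) {k : ℝ} (hk : 0 < k) (hkθ : 8 * k * θ ≤ 1 / 40) :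
    ∃ E : ℝ, 0 ≤ E ∧ ∀ W : ℕ → ℝ, (∀ n, W n ∈ Ioc (α n) (α (n + 1))) → ∀ (i : ℕ) (T : ℝ), 1 ≤ T →
      ∀ F : ℝ → ℝ, ContinuousOn F (Icc 1 T) → ∀ c2 : ℝ, 0 ≤ c2 →
      (∫ t in (1 : ℝ)..T, F t ^ 2) ≤ c2 * T * Real.exp (α (a i) / 20) →
      |(∫ t in (1 : ℝ)..T, F t * Real.exp (2 * k * XB (blk a M i) W (WM α a M W) t)) - ∫ t in (1 : ℝ)..T, F t| ≤
        E * (c2 + 1) * T := by
  obtain ⟨C, hC0, hC⟩ := xb_sq
  refine ⟨k * (C * (24 * 160000) + 1), by positivity, fun W hW i T hT F hF c2 hc2 hF2 => ?_⟩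
  have hcell := wm_cell H S hW
  set x := α (a i) with hx
  have hx10 : 10 ≤ x := by
    have := S.large i
    have h0 : (0:ℝ) ≤ i := Nat.cast_nonneg i
    linarith
  set X := XB (blk a M i) W (WM α a M W) with hX
  have hXc : Continuous X := xb_cont _ _ _
  have hXle : ∀ t, |X t| ≤ 4 * θ * x := fun t => xb_triv H S hW hcell i t
  have hM2 : (M i : ℝ) ≤ 2 * x * Real.exp (x / 2) := by
    refine (S.le i).trans ?_
    rw [← hx]
    have : 2 * θ * x ≤ 2 * x := by nlinarith
    exact mul_le_mul_of_nonneg_right this (Real.exp_pos _).le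
  have hsq : ∫ t in (1 : ℝ)..T, X t ^ 2 ≤ C * (T * (x ^ 4 * Real.exp (-(x / 5)))) :=
    hC α H (a i) (M i) hx10 (S.top i) hM2 W (WM α a M W) hW hcell T hT
  have hpt : ∀ t, |F t * Real.exp (2 * k * X t) - F t| ≤
      k * Real.exp (x / 40) * (Real.exp (-(x / 10)) * F t ^ 2 + Real.exp (x / 10) * X t ^ 2) := by
    intro t
    set y := 2 * k * X t with hy
    have hy1 : |y| ≤ x / 40 := by
      rw [hy, abs_mul, abs_of_pos (by positivity : (0:ℝ) < 2 * k)]
      calc 2 * k * |X t| ≤ 2 * k * (4 * θ * x) := mul_le_mul_of_nonneg_left (hXle t) (by positivity)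
        _ = (8 * k * θ) * x := by ring
        _ ≤ 1 / 40 * x := mul_le_mul_of_nonneg_right hkθ (by linarith)
        _ = _ := by ring
    have h1 : |Real.exp y - 1| ≤ |y| * Real.exp (x / 40) := by
      have h2 := Real.add_one_le_exp (-y)
      have h2' := Real.add_one_le_exp y
      have h3 : Real.exp y * Real.exp (-y) = 1 := by rw [← Real.exp_add]; simp
      have h4 : Real.exp y ≤ Real.exp (x / 40) := Real.exp_le_exp.2 ((le_abs_self y).trans hy1)
      have h5 : Real.exp y * (-y + 1) ≤ Real.exp y * Real.exp (-y) := mul_le_mul_of_nonneg_left h2 (Real.exp_pos _).le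
      rw [h3] at h5
      have h6 : Real.exp y * y ≤ |y| * Real.exp (x / 40) := by
        calc Real.exp y * y ≤ Real.exp y * |y| := mul_le_mul_of_nonneg_left (le_abs_self y) (Real.exp_pos _).le
          _ ≤ Real.exp (x / 40) * |y| := mul_le_mul_of_nonneg_right h4 (abs_nonneg y)
          _ = _ := mul_comm _ _
      have h7 : |y| ≤ |y| * Real.exp (x / 40) := le_mul_of_one_le_right (abs_nonneg y) (Real.one_le_exp (by linarith))
      have h8 := neg_abs_le y
      rw [abs_le]
      constructor <;> linarith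
    have h7 : |y| = 2 * k * |X t| := by rw [hy, abs_mul, abs_of_pos (by positivity : (0:ℝ) < 2 * k)]
    have h8 : 2 * (|F t| * |X t|) ≤ Real.exp (-(x / 10)) * F t ^ 2 + Real.exp (x / 10) * X t ^ 2 := by
      have e1 : Real.exp (x / 10) = Real.exp (x / 20) ^ 2 := by rw [← Real.exp_nat_mul]; congr 1; push_cast; ring
      have e2' : Real.exp (-(x / 10)) = Real.exp (-(x / 20)) ^ 2 := by rw [← Real.exp_nat_mul]; congr 1; push_cast; ring
      have e3 : Real.exp (x / 20) * Real.exp (-(x / 20)) = 1 := by rw [← Real.exp_add]; simp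
      rw [e1, e2', ← sq_abs (F t), ← sq_abs (X t)]
      have e4 : |F t| * |X t| = (Real.exp (-(x / 20)) * |F t|) * (Real.exp (x / 20) * |X t|) := by
        calc |F t| * |X t| = (Real.exp (x / 20) * Real.exp (-(x / 20))) * (|F t| * |X t|) := by rw [e3, one_mul]
          _ = _ := by ring
      rw [e4]
      nlinarith [sq_nonneg (Real.exp (-(x / 20)) * |F t| - Real.exp (x / 20) * |X t|)]
    calc |F t * Real.exp y - F t| = |F t| * |Real.exp y - 1| := by rw [← abs_mul]; congr 1; ring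
      _ ≤ |F t| * (|y| * Real.exp (x / 40)) := mul_le_mul_of_nonneg_left h1 (abs_nonneg _)
      _ = k * Real.exp (x / 40) * (2 * (|F t| * |X t|)) := by rw [h7]; ring
      _ ≤ _ := mul_le_mul_of_nonneg_left h8 (by positivity)
  have hFi : IntervalIntegrable (fun t => F t) volume 1 T := ContinuousOn.intervalIntegrable_of_Icc hT hF
  have hF2i : IntervalIntegrable (fun t => F t ^ 2) volume 1 T := ContinuousOn.intervalIntegrable_of_Icc hT (hF.pow 2)
  have hEc : Continuous fun t => Real.exp (2 * k * X t) := by fun_prop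
  have hFEi : IntervalIntegrable (fun t => F t * Real.exp (2 * k * X t)) volume 1 T :=
    ContinuousOn.intervalIntegrable_of_Icc hT (hF.mul hEc.continuousOn)
  have i1 : IntervalIntegrable (fun t => X t ^ 2) volume 1 T := (hXc.pow 2).intervalIntegrable _ _
  have hGi : IntervalIntegrable (fun t => k * Real.exp (x / 40) * (Real.exp (-(x / 10)) * F t ^ 2 +
      Real.exp (x / 10) * X t ^ 2)) volume 1 T := ((hF2i.const_mul _).add (i1.const_mul _)).const_mul _
  rw [← intervalIntegral.integral_sub hFEi hFi]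
  refine (intervalIntegral.abs_integral_le_integral_abs hT).trans ?_
  have hint : ∫ t in (1 : ℝ)..T, |F t * Real.exp (2 * k * X t) - F t| ≤ ∫ t in (1 : ℝ)..T,
      (k * Real.exp (x / 40) * (Real.exp (-(x / 10)) * F t ^ 2 + Real.exp (x / 10) * X t ^ 2)) :=
    intervalIntegral.integral_mono_on hT ((hFEi.sub hFi).abs) hGi fun t _ => hpt t
  refine hint.trans ?_
  have hval : ∫ t in (1 : ℝ)..T, (k * Real.exp (x / 40) * (Real.exp (-(x / 10)) * F t ^ 2 + Real.exp (x / 10) * X t ^ 2)) =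
      k * Real.exp (x / 40) * (Real.exp (-(x / 10)) * (∫ t in (1 : ℝ)..T, F t ^ 2) +
        Real.exp (x / 10) * ∫ t in (1 : ℝ)..T, X t ^ 2) := by
    rw [intervalIntegral.integral_const_mul, intervalIntegral.integral_add (hF2i.const_mul _) (i1.const_mul _),
      intervalIntegral.integral_const_mul, intervalIntegral.integral_const_mul]
  rw [hval]
  have hT0 : 0 < T := by linarith
  have hx4 : x ^ 4 * Real.exp (-(x / 20)) ≤ 24 * 160000 := by
    have h := Real.pow_div_factorial_le_exp (x / 20) (by linarith) 4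
    have h24 : ((Nat.factorial 4 : ℕ) : ℝ) = 24 := by norm_num [Nat.factorial]
    rw [h24, div_le_iff₀ (by norm_num)] at h
    have h3 : Real.exp (x / 20) * Real.exp (-(x / 20)) = 1 := by rw [← Real.exp_add]; simp
    have h4 : x ^ 4 ≤ 160000 * (Real.exp (x / 20) * 24) := by
      have : x ^ 4 = 160000 * (x / 20) ^ 4 := by ring
      rw [this]; linarith
    calc x ^ 4 * Real.exp (-(x / 20)) ≤ 160000 * (Real.exp (x / 20) * 24) * Real.exp (-(x / 20)) :=
          mul_le_mul_of_nonneg_right h4 (Real.exp_pos _).le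
      _ = 24 * 160000 * (Real.exp (x / 20) * Real.exp (-(x / 20))) := by ring
      _ = _ := by rw [h3, mul_one]
  have p1 : Real.exp (x / 40) * (Real.exp (x / 10) * ∫ t in (1 : ℝ)..T, X t ^ 2) ≤ C * (24 * 160000) * T := by
    calc Real.exp (x / 40) * (Real.exp (x / 10) * ∫ t in (1 : ℝ)..T, X t ^ 2) ≤
          Real.exp (x / 40) * (Real.exp (x / 10) * (C * (T * (x ^ 4 * Real.exp (-(x / 5)))))) := by gcongr
      _ = C * (x ^ 4 * (Real.exp (x / 40) * Real.exp (x / 10) * Real.exp (-(x / 5)))) * T := by ring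
      _ = C * (x ^ 4 * Real.exp (-(3 * x / 40))) * T := by
          rw [← Real.exp_add, ← Real.exp_add]; congr 4; ring
      _ ≤ C * (x ^ 4 * Real.exp (-(x / 20))) * T := by
          have : Real.exp (-(3 * x / 40)) ≤ Real.exp (-(x / 20)) := Real.exp_le_exp.2 (by linarith)
          gcongr
      _ ≤ _ := by gcongr
  have p2 : Real.exp (x / 40) * (Real.exp (-(x / 10)) * ∫ t in (1 : ℝ)..T, F t ^ 2) ≤ c2 * T := by
    calc Real.exp (x / 40) * (Real.exp (-(x / 10)) * ∫ t in (1 : ℝ)..T, F t ^ 2) ≤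
          Real.exp (x / 40) * (Real.exp (-(x / 10)) * (c2 * T * Real.exp (x / 20))) := by gcongr
      _ = c2 * T * (Real.exp (x / 40) * Real.exp (-(x / 10)) * Real.exp (x / 20)) := by ring
      _ = c2 * T * Real.exp (-(x / 40)) := by rw [← Real.exp_add, ← Real.exp_add]; congr 2; ring
      _ ≤ c2 * T * 1 := mul_le_mul_of_nonneg_left (Real.exp_le_one_iff.2 (by linarith)) (by positivity)
      _ = c2 * T := mul_one _
  calc k * Real.exp (x / 40) * (Real.exp (-(x / 10)) * (∫ t in (1 : ℝ)..T, F t ^ 2) +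
        Real.exp (x / 10) * ∫ t in (1 : ℝ)..T, X t ^ 2) =
      k * (Real.exp (x / 40) * (Real.exp (-(x / 10)) * ∫ t in (1 : ℝ)..T, F t ^ 2) +
        Real.exp (x / 40) * (Real.exp (x / 10) * ∫ t in (1 : ℝ)..T, X t ^ 2)) := by ring
    _ ≤ k * (c2 * T + C * (24 * 160000) * T) := mul_le_mul_of_nonneg_left (add_le_add p2 p1) hk.le
    _ ≤ k * (C * (24 * 160000) + 1) * (c2 + 1) * T := by
        have : 0 ≤ k * (C * (24 * 160000) * c2 * T + T) := by positivity
        nlinarith

/-- the block which belongs to the height `T` -/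
lemma exists_idx (H : Cl α) (S : Sca α θ a M) (I : ℕ) {L : ℝ} (hL : α (a (I + 1)) < L) :
    ∃ i, I ≤ i ∧ α (a i) ≤ L ∧ L ≤ α (a (i + 1)) := by
  classical
  have hT : Tendsto (fun i => α (a (i + 1))) atTop atTop := by
    refine tendsto_atTop_mono (fun i => ?_) tendsto_natCast_atTop_atTop
    have := S.large (i + 1)
    push_cast at this
    linarith
  have hmono : Monotone a := monotone_nat_of_le_succ fun i => le_trans (Nat.le_add_right _ _) (S.disj i)
  have hex : ∃ j, L ≤ α (a (j + 1)) := (hT.eventually_ge_atTop L).exists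
  set i := Nat.find hex with hi
  have h1 : L ≤ α (a (i + 1)) := Nat.find_spec hex
  have h2 : I < i := by
    by_contra h
    push Not at h
    have h3 : a (i + 1) ≤ a (I + 1) := hmono (by omega)
    have h4 := H.alpha_mono.monotone h3
    linarith
  refine ⟨i, h2.le, ?_, h1⟩
  obtain ⟨j, hj⟩ : ∃ j, i = j + 1 := ⟨i - 1, by omega⟩
  have h5 := Nat.find_min hex (m := j) (by omega)
  rw [hj]
  exact (not_le.1 h5).le

end Pool.Agent.H41.KT
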