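import Pool.Agent.H41.KT.All

/-! # Project KT: the lower bound for the high moments -/

set_option autoImplicit false

open MeasureTheory Filter Topology Set

namespace Pool.Agent.H41.KT

open Pool.Agent.H41.BC (g tr NN q1)
open Pool.Agent.H41.KS (Cl lw Pr zz m1 m2 e2 ph ff EE)
open Pool.Agent.H41.KG (blk hh Tc tc et WM YY BB Vw vw_mem et_pos yb_blk yb_le yb_cont log_line jensen ff_ne line_cont)

attribute [local irreducible] YY ff

variable {α : ℕ → ℝ} {θ : ℝ} {a M N : ℕ → ℕ}

lemma Sca.a_mono (S : Sca α θ a M) : Monotone a :=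
  monotone_nat_of_le_succ fun i => le_trans (Nat.le_add_right _ _) (S.disj i)

lemma Sca.ten (S : Sca α θ a M) (i : ℕ) : 10 ≤ α (a i) := by
  have := S.large i
  have h0 : (0:ℝ) ≤ i := Nat.cast_nonneg i
  linarith

/-- the lower bound in the window -/
theorem window_bound (H : Cl α) (S : Sca α θ a M)
    (hN : ∀ i, 6 * α (a i) ≤ α (N i) ∧ α (N i) ≤ 6 * α (a i) + 1) {W : ℕ → ℝ} (hW : ∀ n, W n ∈ Ioc (α n) (α (n + 1))) :
    ∃ D : ℝ, 0 ≤ D ∧ ∀ i, ∀ t ∈ Vw α a i,
      θ * α (a i) / 2 - 2 * √(α (a i)) - D - |∑ n ∈ Finset.range (N i) \ blk a M i, YY α n t (W n)| ≤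
        Real.log ‖ff α (WM α a M W) (1 / 2 + t * Complex.I)‖ := by
  classical
  obtain ⟨C, hC0, hC⟩ := log_line
  have hg0 : 0 < g (α 0) := Pool.Agent.H41.BC.g_pos (by linarith [H.four_le 0])
  refine ⟨2 * g (α 0) + C * 2, by positivity, fun i t ht => ?_⟩
  set x := α (a i) with hx
  have hx10 : 10 ≤ x := S.ten i
  have hcell := wm_cell H S hW
  obtain ⟨t1, t2⟩ := tc_bd H S i (vw_mem ht)
  have hTc : Tc α a i = Real.exp (2 * x) := rfl
  have hTc1 : 21 ≤ Tc α a i := by
    rw [hTc]; have := Real.add_one_le_exp (2 * x); linarith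
  have h1 := hC α H (WM α a M W) hcell t (N i) (by linarith)
  have hre : t * Real.exp (-(α (N i) / 2)) ≤ 2 := by
    have e1 : Real.exp (-(α (N i) / 2)) ≤ Real.exp (-(3 * x)) := Real.exp_le_exp.2 (by linarith [(hN i).1])
    have e2 : t ≤ 2 * Real.exp (2 * x) := by rw [← hTc]; linarith
    calc t * Real.exp (-(α (N i) / 2)) ≤ 2 * Real.exp (2 * x) * Real.exp (-(3 * x)) :=
          mul_le_mul e2 e1 (Real.exp_pos _).le (by positivity)
      _ = 2 * Real.exp (-x) := by rw [mul_assoc, ← Real.exp_add]; congr 2; ring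
      _ ≤ 2 * 1 := mul_le_mul_of_nonneg_left (Real.exp_le_one_iff.2 (by linarith)) (by norm_num)
      _ = 2 := by norm_num
  have hblk : blk a M i ⊆ Finset.range (N i) := by
    intro n hn
    rw [blk, Finset.mem_Ico] at hn
    rw [Finset.mem_range]
    refine lt_of_lt_of_le hn.2 ?_
    rw [← H.alpha_mono.le_iff_le]
    linarith [S.top i, (hN i).1]
  have hsplit : ∑ n ∈ Finset.range (N i), YY α n t (WM α a M W n) =
      ∑ n ∈ Finset.range (N i) \ blk a M i, YY α n t (WM α a M W n) + ∑ n ∈ blk a M i, YY α n t (WM α a M W n) :=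
    (Finset.sum_sdiff hblk).symm
  -- the block
  have hb : θ * x / 2 ≤ ∑ n ∈ blk a M i, YY α n t (WM α a M W n) := by
    have h2 : ∀ n ∈ blk a M i, Real.exp (-(x / 2)) / 2 ≤ YY α n t (WM α a M W n) := by
      intro n hn
      have hn' := Finset.mem_Ico.1 hn
      refine yb_blk H hx10 (H.alpha_mono.monotone hn'.1) ?_ (hcell n) (by rw [← hTc]; exact t1)
        (wm_cos H S W hn (vw_mem ht))
      have : n + 1 ≤ a i + M i := hn'.2
      exact (H.alpha_mono.monotone this).trans (S.top i)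
    have h3 := Finset.sum_le_sum h2
    rw [Finset.sum_const, nsmul_eq_mul] at h3
    refine le_trans ?_ h3
    have hcard : (blk a M i).card = M i := by simp [blk]
    rw [hcard]
    have h4 := S.ge i
    calc θ * x / 2 = (θ * x * Real.exp (x / 2)) * (Real.exp (-(x / 2)) / 2) := by
          have : Real.exp (x / 2) * Real.exp (-(x / 2)) = 1 := by rw [← Real.exp_add]; simp
          calc θ * x / 2 = θ * x * (Real.exp (x / 2) * Real.exp (-(x / 2))) / 2 := by rw [this, mul_one]
            _ = _ := by ring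
      _ ≤ _ := mul_le_mul_of_nonneg_right h4 (by positivity)
  -- outside
  set U : Finset ℕ := (Finset.range i).biUnion (blk a M) with hU
  have hcardU : (U.card : ℝ) ≤ ∑ l ∈ Finset.range i, (M l : ℝ) := by
    have h5 : U.card ≤ ∑ l ∈ Finset.range i, (blk a M l).card := Finset.card_biUnion_le
    have h6 : ∑ l ∈ Finset.range i, (blk a M l).card = ∑ l ∈ Finset.range i, M l :=
      Finset.sum_congr rfl fun l _ => by simp [blk]
    rw [h6] at h5
    exact_mod_cast h5
  have hNa : N i ≤ a (i + 1) := by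
    have : α (N i) < α (a (i + 1)) := by linarith [S.next i, (hN i).2]
    exact (H.alpha_mono.lt_iff_lt.1 this).le
  have hdiff : ∀ n ∈ Finset.range (N i) \ blk a M i, |YY α n t (WM α a M W n) - YY α n t (W n)| ≤
      if n ∈ U then (2:ℝ) else 0 := by
    intro n hn
    rw [Finset.mem_sdiff, Finset.mem_range] at hn
    split_ifs with hnU
    · have e1 := yb_le H (hcell n) t
      have e2' := yb_le H (hW n) t
      refine (abs_sub _ _).trans (by linarith)
    · have hout : ∀ l, n ∉ blk a M l := by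
        intro l hl
        rcases lt_trichotomy l i with h7 | h7 | h7
        · exact hnU (Finset.mem_biUnion.2 ⟨l, Finset.mem_range.2 h7, hl⟩)
        · exact hn.2 (h7 ▸ hl)
        · have h8 : a (i + 1) ≤ a l := S.a_mono h7
          have h9 := (Finset.mem_Ico.1 hl).1
          omega
      rw [wm_out hout]
      simp
  have hM0 : 0 ≤ ∑ l ∈ Finset.range i, (M l : ℝ) := Finset.sum_nonneg fun _ _ => Nat.cast_nonneg _
  have hsumd : |∑ n ∈ Finset.range (N i) \ blk a M i, YY α n t (WM α a M W n) -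
      ∑ n ∈ Finset.range (N i) \ blk a M i, YY α n t (W n)| ≤ 2 * √x := by
    rw [← Finset.sum_sub_distrib]
    refine (Finset.abs_sum_le_sum_abs _ _).trans ((Finset.sum_le_sum hdiff).trans ?_)
    rw [← Finset.sum_filter, Finset.sum_const, nsmul_eq_mul]
    have h10 : (((Finset.range (N i) \ blk a M i).filter (· ∈ U)).card : ℝ) ≤ U.card := by
      exact_mod_cast Finset.card_le_card fun n hn => (Finset.mem_filter.1 hn).2
    have h11 : ∑ l ∈ Finset.range i, (M l : ℝ) ≤ √x := Real.le_sqrt_of_sq_le (S.prev i)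
    linarith
  rw [hsplit] at h1
  rw [abs_le] at h1 hsumd
  have h12 := neg_abs_le (∑ n ∈ Finset.range (N i) \ blk a M i, YY α n t (W n))
  have h13 : C * (t * Real.exp (-(α (N i) / 2))) ≤ C * 2 := mul_le_mul_of_nonneg_left hre hC0
  linarith [h1.1, hsumd.1]

/-- the moments of the modified system are large -/
theorem mom_bound (H : Cl α) (S : Sca α θ a M)
    (hN : ∀ i, 6 * α (a i) ≤ α (N i) ∧ α (N i) ≤ 6 * α (a i) + 1) {W : ℕ → ℝ} (hW : ∀ n, W n ∈ Ioc (α n) (α (n + 1)))
    {C : ℝ} (hC : 0 ≤ C) (hB : ∀ᶠ i : ℕ in atTop,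
      BB α a M N i W ≤ ENNReal.ofReal (((i : ℝ) + 1) ^ 2 * (2 * et α a i * (C * (1 + Real.log (α (N i))))))) :
    ∃ D : ℝ, 0 ≤ D ∧ ∀ η : ℝ, 0 < η → ∀ k : ℝ, 0 < k → ∀ᶠ i : ℕ in atTop,
      2 * et α a i * Real.exp (2 * k * (θ * α (a i) / 2 - D - η * α (a i) - (2 + 2 * C / η) * √(α (a i)))) ≤
        ∫ t in (1 : ℝ)..(2 * Tc α a i), ‖ff α (WM α a M W) (1 / 2 + t * Complex.I)‖ ^ (2 * k) := by
  classical
  obtain ⟨D, hD0, hD⟩ := window_bound H S hN hW
  refine ⟨D, hD0, fun η hη k hk => ?_⟩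
  filter_upwards [hB] with i hi
  set x := α (a i) with hx
  have hi0 : (0:ℝ) ≤ i := Nat.cast_nonneg i
  have hxi : (i : ℝ) + 10 ≤ x := S.large i
  have hx10 : 10 ≤ x := by linarith
  have hx0 : 0 < x := by linarith
  set e := et α a i with he
  have he0 : 0 < e := et_pos H a i
  set c := tc α a i with hc
  have hcell := wm_cell H S hW
  have hTc : Tc α a i = Real.exp (2 * x) := rfl
  have hTc1 : 21 ≤ Tc α a i := by
    rw [hTc]; have := Real.add_one_le_exp (2 * x); linarith
  have hlow : Tc α a i - 1 ≤ c - e := (tc_bd H S i (t := c - e) (by rw [abs_le]; constructor <;> linarith)).1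
  have hup : c + e ≤ 2 * Tc α a i - 1 := (tc_bd H S i (t := c + e) (by rw [abs_le]; constructor <;> linarith)).2
  have hce : c - e ≤ c + e := by linarith
  set s := Finset.range (N i) \ blk a M i with hs
  set G : ℝ → ℝ := fun t => ∑ n ∈ s, YY α n t (W n) with hG
  have hGc : Continuous G := continuous_finsetSum _ fun n _ => yb_cont α n (W n)
  -- the square of the random part
  have hBi : ∫ t in (c - e)..(c + e), G t ^ 2 ≤ ((i : ℝ) + 1) ^ 2 * (2 * e * (C * (1 + Real.log (α (N i))))) := by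
    have hr0 : 0 ≤ ((i : ℝ) + 1) ^ 2 * (2 * e * (C * (1 + Real.log (α (N i))))) := by
      have : 0 ≤ Real.log (α (N i)) := Real.log_nonneg (by linarith [H.four_le (N i)])
      positivity
    have e1 : BB α a M N i W = ENNReal.ofReal (∫ t in (c - e)..(c + e), G t ^ 2) := by
      unfold BB Vw
      rw [intervalIntegral.integral_of_le hce, ← integral_Icc_eq_integral_Ioc,
        ofReal_integral_eq_lintegral_ofReal]
      · exact (hGc.pow 2).continuousOn.integrableOn_Icc
      · exact ae_of_all _ fun t => sq_nonneg _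
    rw [e1] at hi
    exact (ENNReal.ofReal_le_ofReal_iff hr0).1 hi
  have hlogN : Real.log (α (N i)) ≤ 6 * x := by
    have h0 : 0 < α (N i) := by linarith [H.four_le (N i)]
    have := Real.log_le_sub_one_of_pos h0
    linarith [(hN i).2]
  have hslow : ((i : ℝ) + 1) ^ 2 ≤ √x := by
    refine Real.le_sqrt_of_sq_le ?_
    have := S.slow i
    calc (((i : ℝ) + 1) ^ 2) ^ 2 = ((i : ℝ) + 1) ^ 4 := by ring
      _ ≤ x := this
  have hBi2 : ∫ t in (c - e)..(c + e), G t ^ 2 ≤ 2 * e * (8 * C * (√x * x)) := by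
    refine hBi.trans ?_
    have f2 : C * (1 + Real.log (α (N i))) ≤ C * (8 * x) := mul_le_mul_of_nonneg_left (by linarith) hC
    have f3 : 0 ≤ C * (1 + Real.log (α (N i))) := by
      have : 0 ≤ Real.log (α (N i)) := Real.log_nonneg (by linarith [H.four_le (N i)])
      positivity
    calc ((i : ℝ) + 1) ^ 2 * (2 * e * (C * (1 + Real.log (α (N i))))) ≤ √x * (2 * e * (C * (8 * x))) := by gcongr
      _ = _ := by ring
  -- the integral of the logarithm
  set l : ℝ → ℝ := fun t => Real.log ‖ff α (WM α a M W) (1 / 2 + t * Complex.I)‖ with hl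
  have hlc : ContinuousOn l (Icc (c - e) (c + e)) := (line_cont H hcell).mono fun t ht =>
    (show (0:ℝ) < t by linarith [ht.1])
  have hint : (c + e - (c - e)) * (θ * x / 2 - D - η * x - (2 + 2 * C / η) * √x) ≤ ∫ t in (c - e)..(c + e), l t := by
    have h1 : ∫ t in (c - e)..(c + e), (θ * x / 2 - 2 * √x - D - η * x - G t ^ 2 * (1 / (4 * η * x))) ≤
        ∫ t in (c - e)..(c + e), l t := by
      refine intervalIntegral.integral_mono_on hce ?_ (ContinuousOn.intervalIntegrable_of_Icc hce hlc) fun t ht => ?_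
      · exact (continuous_const.sub ((hGc.pow 2).mul continuous_const)).intervalIntegrable _ _
      · have h2 := hD i t ht
        have h3 : |G t| ≤ η * x + G t ^ 2 * (1 / (4 * η * x)) := by
          have h4 : 0 < 4 * η * x := by positivity
          rw [mul_one_div, ← sub_le_iff_le_add', le_div_iff₀ h4, ← sq_abs]
          nlinarith [sq_nonneg (|G t| - 2 * (η * x))]
        linarith
    have h4 : ∫ t in (c - e)..(c + e), (θ * x / 2 - 2 * √x - D - η * x - G t ^ 2 * (1 / (4 * η * x))) =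
        (c + e - (c - e)) * (θ * x / 2 - 2 * √x - D - η * x) - (∫ t in (c - e)..(c + e), G t ^ 2) * (1 / (4 * η * x)) := by
      have hi2 : IntervalIntegrable (fun t => G t ^ 2 * (1 / (4 * η * x))) volume (c - e) (c + e) :=
        ((hGc.pow 2).mul continuous_const).intervalIntegrable _ _
      rw [intervalIntegral.integral_sub intervalIntegrable_const hi2,
        intervalIntegral.integral_const, smul_eq_mul, intervalIntegral.integral_mul_const]
    have h5 : c + e - (c - e) = 2 * e := by ring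
    have h6 : (∫ t in (c - e)..(c + e), G t ^ 2) * (1 / (4 * η * x)) ≤ 2 * e * (2 * C / η * √x) := by
      calc (∫ t in (c - e)..(c + e), G t ^ 2) * (1 / (4 * η * x)) ≤ 2 * e * (8 * C * (√x * x)) * (1 / (4 * η * x)) :=
            mul_le_mul_of_nonneg_right hBi2 (by positivity)
        _ = _ := by field_simp; ring
    rw [h4] at h1
    rw [h5] at h1 ⊢
    nlinarith
  have hJ := jensen hce hlc (by linarith : 0 ≤ 2 * k) hint
  have hrw : ∀ t : ℝ, Real.exp (2 * k * l t) = ‖ff α (WM α a M W) (1 / 2 + t * Complex.I)‖ ^ (2 * k) := by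
    intro t
    simp only [hl]
    rw [Real.rpow_def_of_pos (norm_pos_iff.2 (ff_ne α _ _)), mul_comm]
  simp_rw [hrw] at hJ
  -- the whole interval
  have hFc : ContinuousOn (fun t : ℝ => ‖ff α (WM α a M W) (1 / 2 + t * Complex.I)‖ ^ (2 * k)) (Ici 1) := by
    have h1 := (continuousOn_const (c := 2 * k)).mul (line_cont H hcell)
    refine (h1.rexp.congr fun t _ => (hrw t).symm).mono fun t ht => ?_
    exact lt_of_lt_of_le one_pos (show (1:ℝ) ≤ t from ht)
  have hmono : ∫ t in (c - e)..(c + e), ‖ff α (WM α a M W) (1 / 2 + t * Complex.I)‖ ^ (2 * k) ≤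
      ∫ t in (1 : ℝ)..(2 * Tc α a i), ‖ff α (WM α a M W) (1 / 2 + t * Complex.I)‖ ^ (2 * k) := by
    refine intervalIntegral.integral_mono_interval (by linarith) hce (by linarith) ?_ ?_
    · exact ae_of_all _ fun t => by positivity
    · exact ContinuousOn.intervalIntegrable_of_Icc (by linarith) (hFc.mono fun t ht => ht.1)
  have h6 : c + e - (c - e) = 2 * e := by ring
  rw [h6] at hJ
  exact hJ.trans hmono

/-- power growth -/
theorem growth (H : Cl α) (S : Sca α θ a M) {D C k : ℝ} (hD : 0 ≤ D) (hC : 0 ≤ C) (hk : 0 < k) (hkθ : 2 < k * θ) :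
    ∃ δ : ℝ, 0 < δ ∧ ∃ η : ℝ, 0 < η ∧ ∀ᶠ i : ℕ in atTop, (2 * Tc α a i) ^ (1 + δ) <
      2 * et α a i * Real.exp (2 * k * (θ * α (a i) / 2 - D - η * α (a i) - (2 + 2 * C / η) * √(α (a i)))) := by
  have hxT : Tendsto (fun i => α (a i)) atTop atTop := by
    refine tendsto_atTop_mono (fun i => ?_) tendsto_natCast_atTop_atTop
    exact (by linarith : (i : ℝ) ≤ (i : ℝ) + 10).trans (S.large i)
  set ρ : ℝ := k * θ - 2 with hρ
  have hρ0 : 0 < ρ := by rw [hρ]; linarith
  set δ : ℝ := ρ / 8 with hδ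
  have hδ0 : 0 < δ := by positivity
  set η : ℝ := ρ / (8 * k) with hη
  have hη0 : 0 < η := by positivity
  set c0 : ℝ := 1 + δ + 2 * k * D with hc0
  have hc00 : 0 < c0 := by positivity
  set c1 : ℝ := 2 * k * (2 + 2 * C / η) + 2 with hc1
  have hc10 : 0 < c1 := by positivity
  refine ⟨δ, hδ0, η, hη0, ?_⟩
  have hrT : Tendsto (fun i => √(α (a i))) atTop atTop := Real.tendsto_sqrt_atTop.comp hxT
  filter_upwards [hrT.eventually_gt_atTop (2 * (c0 + c1) / ρ), hrT.eventually_gt_atTop 1] with i h1 h2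
  set x := α (a i) with hx
  set r := √x with hr
  have hx10 : 10 ≤ x := S.ten i
  have hrx : r ^ 2 = x := Real.sq_sqrt (by linarith)
  have hmain : c0 + c1 * r < ρ / 2 * x := by
    rw [div_lt_iff₀ hρ0] at h1
    have e1 : c0 + c1 * r ≤ (c0 + c1) * r := by nlinarith
    have e2' : (c0 + c1) * r < ρ / 2 * x := by
      rw [← hrx]
      nlinarith
    linarith
  have hTc : Tc α a i = Real.exp (2 * x) := rfl
  have hT0 : 0 < 2 * Tc α a i := by rw [hTc]; positivity
  have hlog : Real.log (2 * Tc α a i) ≤ 1 + 2 * x := by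
    rw [hTc, Real.log_mul (by norm_num) (Real.exp_pos _).ne', Real.log_exp]
    have : Real.log 2 ≤ 1 := by have := Real.log_two_lt_d9; linarith
    linarith
  have h3 : Real.exp (-(2 * r)) ≤ 2 * et α a i := by
    unfold et
    rw [← hx]
    have h4 : 2 * (1 / (4 * (x + 1))) = (2 * x + 2)⁻¹ := by
      have : x + 1 ≠ 0 := by linarith
      field_simp
      ring
    rw [h4, Real.exp_neg]
    refine inv_anti₀ (by linarith) ?_
    have h5 := Real.quadratic_le_exp_of_nonneg (show 0 ≤ 2 * r by linarith)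
    nlinarith
  calc (2 * Tc α a i) ^ (1 + δ) = Real.exp (Real.log (2 * Tc α a i) * (1 + δ)) := Real.rpow_def_of_pos hT0 _
    _ ≤ Real.exp ((1 + 2 * x) * (1 + δ)) := Real.exp_le_exp.2 (mul_le_mul_of_nonneg_right hlog (by linarith))
    _ < Real.exp (-(2 * r) + 2 * k * (θ * x / 2 - D - η * x - (2 + 2 * C / η) * r)) := by
        refine Real.exp_lt_exp.2 ?_
        have e1 : 2 * k * (η * x) = ρ / 4 * x := by rw [hη]; field_simp; ring
        have e2' : 2 * k * (θ * x / 2 - D - η * x - (2 + 2 * C / η) * r) =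
            (k * θ) * x - 2 * k * D - 2 * k * (η * x) - (c1 - 2) * r := by rw [hc1]; ring
        have e3 : k * θ = ρ + 2 := by rw [hρ]; ring
        rw [e2', e1, e3]
        have e4 : (1 + 2 * x) * (1 + δ) = 1 + δ + 2 * x + ρ / 4 * x := by rw [hδ]; ring
        rw [e4]
        have e5 : c0 = 1 + δ + 2 * k * D := hc0
        linarith
    _ = Real.exp (-(2 * r)) * Real.exp (2 * k * (θ * x / 2 - D - η * x - (2 + 2 * C / η) * r)) := Real.exp_add _ _
    _ ≤ _ := mul_le_mul_of_nonneg_right h3 (Real.exp_pos _).le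

end Pool.Agent.H41.KT
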