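import Pool.Agent.H41.KT.FinA

/-! # Project KT: the first moments of the modified system -/

set_option autoImplicit false

open MeasureTheory Filter Topology Set

namespace Pool.Agent.H41.KT

open Pool.Agent.H41.BC (g tr NN q1)
open Pool.Agent.H41.KS (Cl lw Pr zz m1 m2 e2 ph ff EE)
open Pool.Agent.H41.KG (blk hh Tc tc et WM YY yb_log log_line ff_ne line_cont)

attribute [local irreducible] YY ff

variable {α : ℕ → ℝ} {θ : ℝ} {a M : ℕ → ℕ}

/-- the first moments of the modified system have the right order up to a small power of the logarithm -/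
theorem two_sided (H : Cl α) (S : Sca α θ a M) (hθ : 0 < θ) (hθ1 : θ ≤ 1) {k : ℕ} (hk : 1 ≤ k)
    (hkθ : 8 * (k : ℝ) * θ ≤ 1 / 40) {W : ℕ → ℝ} (hW : ∀ n, W n ∈ Ioc (α n) (α (n + 1))) {C₁ C₂ : ℝ} (hC₁ : 0 < C₁)
    (hm1 : Tendsto (fun T : ℝ => (∫ t in (1 : ℝ)..T, ‖ff α W (1 / 2 + t * Complex.I)‖ ^ (2 * k)) /
      (T * Real.log T ^ (k ^ 2))) atTop (𝓝 C₁))
    (hm2 : Tendsto (fun T : ℝ => (∫ t in (1 : ℝ)..T, ‖ff α W (1 / 2 + t * Complex.I)‖ ^ (4 * k)) /
      (T * Real.log T ^ (4 * k ^ 2))) atTop (𝓝 C₂)) {ε : ℝ} (hε : 648 * (k : ℝ) ^ 3 * θ < ε) :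
    ∀ᶠ T : ℝ in atTop,
      T * Real.log T ^ ((k : ℝ) ^ 2 - ε) ≤
        ∫ t in (1 : ℝ)..T, ‖ff α (WM α a M W) (1 / 2 + t * Complex.I)‖ ^ (2 * (k : ℝ)) ∧
      ∫ t in (1 : ℝ)..T, ‖ff α (WM α a M W) (1 / 2 + t * Complex.I)‖ ^ (2 * (k : ℝ)) ≤
        T * Real.log T ^ ((k : ℝ) ^ 2 + ε) := by
  obtain ⟨B, hB0, hB⟩ := line_comp H S
  have hk1 : (1 : ℝ) ≤ k := by exact_mod_cast hk
  have hk0 : (0 : ℝ) < k := by linarith
  obtain ⟨E, hE0, hE⟩ := case_b H S hθ1 hk0 hkθ
  have hcell := wm_cell H S hW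
  set b : ℝ := 8 * (k : ℝ) * θ with hb
  have hb0 : 0 < b := by positivity
  set c2 : ℝ := |C₂| + 1 with hc2
  have hc20 : 0 < c2 := by positivity
  set s : ℝ := ε - b * (1 + 80 * (k : ℝ) ^ 2) with hs
  have hs0 : 0 < s := by
    have h1 : b * (1 + 80 * (k : ℝ) ^ 2) ≤ 648 * (k : ℝ) ^ 3 * θ := by
      have h2 : (k : ℝ) ≤ (k : ℝ) ^ 3 := le_self_pow₀ hk1 (by norm_num)
      have h3 : (k : ℝ) * θ ≤ (k : ℝ) ^ 3 * θ := mul_le_mul_of_nonneg_right h2 hθ.le
      have h4 : b * (1 + 80 * (k : ℝ) ^ 2) = 8 * ((k : ℝ) * θ) + 640 * ((k : ℝ) ^ 3 * θ) := by rw [hb]; ring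
      rw [h4]
      linarith
    linarith
  set D0 : ℝ := 1 + 2 * k * B with hD0
  set G : ℝ := 2 * C₁ + E * (c2 + 1) with hG
  have hG0 : 0 < G := by positivity
  have hLT : Tendsto (fun T : ℝ => Real.log T) atTop atTop := Real.tendsto_log_atTop
  have huT : Tendsto (fun T : ℝ => Real.exp (s * Real.log (Real.log T))) atTop atTop :=
    Real.tendsto_exp_atTop.comp ((Real.tendsto_log_atTop.comp hLT).const_mul_atTop hs0)
  filter_upwards [huT.eventually_ge_atTop (Real.exp D0 * G), huT.eventually_ge_atTop (Real.exp D0 * 4 / C₁),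
    hLT.eventually_ge_atTop (4 * (E * (c2 + 1)) / C₁), hLT.eventually_gt_atTop (α (a 1) / 3), hLT.eventually_gt_atTop 1,
    hm1.eventually (lt_mem_nhds (show C₁ / 2 < C₁ by linarith)), hm1.eventually (gt_mem_nhds (show C₁ < 2 * C₁ by linarith)),
    hm2.eventually (gt_mem_nhds (show C₂ < c2 by linarith [le_abs_self C₂])), eventually_gt_atTop 1] with
    T h1 h2 h3 h4 h5 h6 h7 h8 hT1
  have hT0 : 0 < T := by linarith
  set L : ℝ := Real.log T with hL
  have hL0 : 0 < L := by linarith
  set u : ℝ := Real.log L with hu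
  have hu0 : 0 < u := Real.log_pos h5
  set A : ℝ := L ^ (k ^ 2) with hA
  have hA0 : 0 < A := by positivity
  have hAL : L ≤ A := le_self_pow₀ h5.le (by positivity)
  have hAexp : A = Real.exp ((k : ℝ) ^ 2 * u) := by
    rw [hA, ← Real.rpow_natCast, Real.rpow_def_of_pos hL0, ← hu]
    congr 1
    push_cast
    ring
  rw [lt_div_iff₀ (by positivity)] at h6
  rw [div_lt_iff₀ (by positivity)] at h7 h8
  obtain ⟨i, -, hi1, hi2⟩ := exists_idx H S 0 (L := 3 * L) (by simpa using (by linarith : α (a 1) < 3 * L))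
  set X := XB (blk a M i) W (WM α a M W) with hX
  have hXc : Continuous X := xb_cont _ _ _
  set x := α (a i) with hx
  have hx10 : 10 ≤ x := by
    have := S.large i
    have h0 : (0:ℝ) ≤ i := Nat.cast_nonneg i
    linarith
  have hXle : ∀ t, |2 * k * X t| ≤ b * x := fun t => by
    rw [abs_mul, abs_of_pos (by positivity : (0:ℝ) < 2 * k)]
    calc 2 * k * |X t| ≤ 2 * k * (4 * θ * x) := mul_le_mul_of_nonneg_left (xb_triv H S hW hcell i t) (by positivity)
      _ = b * x := by rw [hb]; ring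
  set P := ∑ l ∈ Finset.range i, α (a l) with hP
  have hPle : P ≤ 2 + u := by
    have e1 : P ≤ Real.log x := S.sparse i
    have e2' : Real.log x ≤ Real.log (3 * L) := Real.log_le_log (by linarith) hi1
    have e3 : Real.log (3 * L) = Real.log 3 + u := Real.log_mul (by norm_num) hL0.ne'
    have e4 : Real.log 3 ≤ 2 := by
      have := Real.log_le_sub_one_of_pos (show (0:ℝ) < 3 by norm_num)
      linarith
    linarith
  have hR : 2 * k * (4 * θ * P + B) ≤ b * u + D0 := by
    have e1 : 2 * k * (4 * θ * P + B) = b * P + 2 * k * B := by rw [hb]; ring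
    have e2' : b * P ≤ b * (2 + u) := mul_le_mul_of_nonneg_left hPle hb0.le
    rw [e1, hD0]
    linarith
  -- the functions
  set F : ℝ → ℝ := fun t => ‖ff α W (1 / 2 + t * Complex.I)‖ ^ (2 * k) with hF
  set F' : ℝ → ℝ := fun t => ‖ff α (WM α a M W) (1 / 2 + t * Complex.I)‖ ^ (2 * (k : ℝ)) with hF'
  have hFpos : ∀ t, 0 < F t := fun t => pow_pos (norm_pos_iff.2 (ff_ne _ _ _)) _
  have hFexp : ∀ t : ℝ, F t = Real.exp (2 * k * Real.log ‖ff α W (1 / 2 + t * Complex.I)‖) := fun t => by
    simp only [hF]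
    rw [← Real.rpow_natCast, Real.rpow_def_of_pos (norm_pos_iff.2 (ff_ne _ _ _))]
    congr 1
    push_cast
    ring
  have hFexp' : ∀ t : ℝ, F' t = Real.exp (2 * k * Real.log ‖ff α (WM α a M W) (1 / 2 + t * Complex.I)‖) := fun t => by
    simp only [hF']
    rw [Real.rpow_def_of_pos (norm_pos_iff.2 (ff_ne _ _ _))]
    congr 1
    ring
  have hsub : Icc 1 T ⊆ Ioi 0 := fun t ht => lt_of_lt_of_le one_pos (show (1:ℝ) ≤ t from ht.1)
  have hFc : ContinuousOn F (Icc 1 T) := (Pool.Agent.H41.KS.ff_cont_line H hW (2 * k)).mono hsub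
  have hFc' : ContinuousOn F' (Icc 1 T) := by
    have e1 := (continuousOn_const (c := 2 * (k : ℝ))).mul (line_cont H hcell)
    exact (e1.rexp.congr fun t _ => hFexp' t).mono hsub
  have hFi : IntervalIntegrable (fun t => F t) volume 1 T := ContinuousOn.intervalIntegrable_of_Icc hT1.le hFc
  have hFi' : IntervalIntegrable (fun t => F' t) volume 1 T := ContinuousOn.intervalIntegrable_of_Icc hT1.le hFc'
  have hEc : Continuous fun t => Real.exp (2 * k * X t) := by fun_prop
  have hFEi : IntervalIntegrable (fun t => F t * Real.exp (2 * k * X t)) volume 1 T :=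
    ContinuousOn.intervalIntegrable_of_Icc hT1.le (hFc.mul hEc.continuousOn)
  set J := ∫ t in (1 : ℝ)..T, F t * Real.exp (2 * k * X t) with hJ
  have hpt : ∀ t ∈ Icc 1 T, Real.exp (-(b * u + D0)) * (F t * Real.exp (2 * k * X t)) ≤ F' t ∧
      F' t ≤ Real.exp (b * u + D0) * (F t * Real.exp (2 * k * X t)) := by
    intro t ht
    have hlogt : 3 * Real.log t ≤ α (a (i + 1)) := by
      have : Real.log t ≤ L := Real.log_le_log (by linarith [ht.1]) ht.2
      linarith
    have e1 := abs_le.1 (hB W hW i t ht.1 hlogt)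
    have e2' := mul_le_mul_of_nonneg_left e1.1 (by positivity : 0 ≤ 2 * (k : ℝ))
    have e3 := mul_le_mul_of_nonneg_left e1.2 (by positivity : 0 ≤ 2 * (k : ℝ))
    rw [hFexp, hFexp', ← Real.exp_add, ← Real.exp_add, ← Real.exp_add, Real.exp_le_exp, Real.exp_le_exp]
    constructor <;> linarith
  have hlow : Real.exp (-(b * u + D0)) * J ≤ ∫ t in (1 : ℝ)..T, F' t := by
    rw [hJ, ← intervalIntegral.integral_const_mul]
    exact intervalIntegral.integral_mono_on hT1.le (hFEi.const_mul _) hFi' fun t ht => (hpt t ht).1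
  have hupp : ∫ t in (1 : ℝ)..T, F' t ≤ Real.exp (b * u + D0) * J := by
    rw [hJ, ← intervalIntegral.integral_const_mul]
    exact intervalIntegral.integral_mono_on hT1.le hFi' (hFEi.const_mul _) fun t ht => (hpt t ht).2
  -- the integral `J`
  set v : ℝ := b * (80 * (k : ℝ) ^ 2) * u with hv
  have hv0 : 0 ≤ v := by positivity
  have hJ2 : C₁ / 4 * (T * A) * Real.exp (-v) ≤ J ∧ J ≤ G * (T * A) * Real.exp v := by
    have hTA : 0 < T * A := by positivity
    have hGC : 2 * C₁ ≤ G := by
      have : 0 ≤ E * (c2 + 1) := by positivity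
      linarith
    rcases le_or_gt x (80 * (k : ℝ) ^ 2 * u) with hc | hc
    · have hbx : b * x ≤ v := by
        calc b * x ≤ b * (80 * (k : ℝ) ^ 2 * u) := mul_le_mul_of_nonneg_left hc hb0.le
          _ = v := by rw [hv]; ring
      have g1 : Real.exp (-v) * ∫ t in (1 : ℝ)..T, F t ≤ J := by
        rw [hJ, ← intervalIntegral.integral_const_mul]
        refine intervalIntegral.integral_mono_on hT1.le (hFi.const_mul _) hFEi fun t _ => ?_
        rw [mul_comm]
        exact mul_le_mul_of_nonneg_left (Real.exp_le_exp.2 (by linarith [(abs_le.1 (hXle t)).1])) (hFpos t).le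
      have g2 : J ≤ Real.exp v * ∫ t in (1 : ℝ)..T, F t := by
        rw [hJ, ← intervalIntegral.integral_const_mul]
        refine intervalIntegral.integral_mono_on hT1.le hFEi (hFi.const_mul _) fun t _ => ?_
        rw [mul_comm (Real.exp v)]
        exact mul_le_mul_of_nonneg_left (Real.exp_le_exp.2 (by linarith [(abs_le.1 (hXle t)).2])) (hFpos t).le
      constructor
      · refine le_trans ?_ g1
        rw [mul_comm (Real.exp (-v))]
        refine mul_le_mul_of_nonneg_right ?_ (Real.exp_pos _).le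
        have : 0 < C₁ * (T * A) := by positivity
        linarith
      · refine g2.trans ?_
        rw [mul_comm (Real.exp v)]
        refine mul_le_mul_of_nonneg_right ?_ (Real.exp_pos _).le
        exact h7.le.trans (mul_le_mul_of_nonneg_right hGC hTA.le)
    · have hF2 : (∫ t in (1 : ℝ)..T, F t ^ 2) ≤ c2 * T * Real.exp (x / 20) := by
        have g1 : ∀ t, F t ^ 2 = ‖ff α W (1 / 2 + t * Complex.I)‖ ^ (4 * k) := fun t => by
          simp only [hF]
          rw [← pow_mul]
          congr 1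
          ring
        simp_rw [g1]
        refine h8.le.trans ?_
        rw [mul_assoc]
        refine mul_le_mul_of_nonneg_left (mul_le_mul_of_nonneg_left ?_ hT0.le) hc20.le
        rw [← Real.rpow_natCast, Real.rpow_def_of_pos hL0, ← hu]
        refine Real.exp_le_exp.2 ?_
        push_cast
        linarith
      have g2 := abs_le.1 (hE W hW i T hT1.le F hFc c2 hc20.le hF2)
      have g3 : E * (c2 + 1) ≤ C₁ / 4 * A := by
        rw [div_le_iff₀ hC₁] at h3
        have := mul_le_mul_of_nonneg_right hAL hC₁.le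
        linarith
      have g4 : E * (c2 + 1) * T ≤ C₁ / 4 * (T * A) := by
        calc E * (c2 + 1) * T ≤ C₁ / 4 * A * T := mul_le_mul_of_nonneg_right g3 hT0.le
          _ = _ := by ring
      have g5 : E * (c2 + 1) * T ≤ E * (c2 + 1) * (T * A) := by
        refine mul_le_mul_of_nonneg_left ?_ (by positivity)
        exact le_mul_of_one_le_right hT0.le (by linarith)
      have g6 : Real.exp (-v) ≤ 1 := Real.exp_le_one_iff.2 (by linarith)
      have g7 : 1 ≤ Real.exp v := Real.one_le_exp hv0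
      constructor
      · calc C₁ / 4 * (T * A) * Real.exp (-v) ≤ C₁ / 4 * (T * A) * 1 :=
              mul_le_mul_of_nonneg_left g6 (by positivity)
          _ ≤ J := by linarith [g2.1]
      · calc J ≤ G * (T * A) * 1 := by rw [mul_one, hG, add_mul]; linarith [g2.2]
          _ ≤ _ := mul_le_mul_of_nonneg_left g7 (by positivity)
  have key : ∀ c : ℝ, T * L ^ ((k : ℝ) ^ 2 + c) = T * A * Real.exp (c * u) := fun c => by
    rw [Real.rpow_def_of_pos hL0, ← hu, hAexp, mul_assoc, ← Real.exp_add]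
    congr 2
    ring
  have hvs : b * u + v = ε * u - s * u := by rw [hv, hs]; ring
  constructor
  · have e0 := key (-ε)
    rw [← sub_eq_add_neg] at e0
    rw [e0]
    refine le_trans ?_ hlow
    refine le_trans ?_ (mul_le_mul_of_nonneg_left hJ2.1 (Real.exp_pos _).le)
    have e1 : Real.exp (-(b * u + D0)) * (C₁ / 4 * (T * A) * Real.exp (-v)) =
        T * A * Real.exp (-ε * u) * (C₁ / 4 * (Real.exp (-D0) * Real.exp (s * u))) := by
      have : Real.exp (-(b * u + D0)) * Real.exp (-v) = Real.exp (-ε * u) * (Real.exp (-D0) * Real.exp (s * u)) := by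
        rw [← Real.exp_add, ← Real.exp_add, ← Real.exp_add]
        congr 1
        linarith
      calc Real.exp (-(b * u + D0)) * (C₁ / 4 * (T * A) * Real.exp (-v)) =
            (Real.exp (-(b * u + D0)) * Real.exp (-v)) * (C₁ / 4 * (T * A)) := by ring
        _ = _ := by rw [this]; ring
    rw [e1]
    refine le_mul_of_one_le_right (by positivity) ?_
    rw [div_le_iff₀ hC₁] at h2
    have e3 : Real.exp (-D0) * Real.exp D0 = 1 := by rw [← Real.exp_add]; simp
    have e4 := mul_le_mul_of_nonneg_left h2 (Real.exp_pos (-D0)).le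
    have e5 : Real.exp (-D0) * (Real.exp D0 * 4) = 4 := by rw [← mul_assoc, e3, one_mul]
    rw [e5] at e4
    linarith
  · rw [key ε]
    refine hupp.trans ?_
    refine (mul_le_mul_of_nonneg_left hJ2.2 (Real.exp_pos _).le).trans ?_
    have e1 : Real.exp (b * u + D0) * (G * (T * A) * Real.exp v) =
        T * A * (Real.exp (ε * u - s * u) * (Real.exp D0 * G)) := by
      have : Real.exp (b * u + D0) * Real.exp v = Real.exp (ε * u - s * u) * Real.exp D0 := by
        rw [← Real.exp_add, ← Real.exp_add]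
        congr 1
        linarith
      calc Real.exp (b * u + D0) * (G * (T * A) * Real.exp v) =
            (Real.exp (b * u + D0) * Real.exp v) * (G * (T * A)) := by ring
        _ = _ := by rw [this]; ring
    rw [e1]
    refine mul_le_mul_of_nonneg_left ?_ (by positivity)
    calc Real.exp (ε * u - s * u) * (Real.exp D0 * G) ≤ Real.exp (ε * u - s * u) * Real.exp (s * u) :=
          mul_le_mul_of_nonneg_left h1 (Real.exp_pos _).le
      _ = _ := by rw [← Real.exp_add]; congr 1; ring

end Pool.Agent.H41.KT
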