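import Pool.Agent.H41.KT.FinB
import Pool.Agent.H41.KT.FinC

/-! # Project KT: the system -/

set_option autoImplicit false

open MeasureTheory Filter Topology Set

namespace Pool.Agent.H41.KT

open Pool.Agent.H41.BC (g tr NN q1)
open Pool.Agent.H41.KS (Cl lw Pr zz m1 m2 e2 ph ff EE XX IsKap)
open Pool.Agent.H41.KG (blk hh Tc tc et WM YY NLaw num_mod bb_ae)

attribute [local irreducible] YY ff

theorem sys {α : ℕ → ℝ} (H : Cl α) {K0 : ℕ} (hK : 1 ≤ K0) {ε : ℝ} (hε : 0 < ε) (hε1 : ε ≤ 1) :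
    ∃ W' : ℕ → ℝ, (∀ n, W' n ∈ Ioc (α n) (α (n + 1))) ∧ NLaw W' ∧
    (∀ k : ℕ, 1 ≤ k → k ≤ K0 → ∀ᶠ T : ℝ in atTop,
      T * Real.log T ^ ((k : ℝ) ^ 2 - ε) ≤ ∫ t in (1 : ℝ)..T, ‖ff α W' (1 / 2 + t * Complex.I)‖ ^ (2 * (k : ℝ)) ∧
      ∫ t in (1 : ℝ)..T, ‖ff α W' (1 / 2 + t * Complex.I)‖ ^ (2 * (k : ℝ)) ≤ T * Real.log T ^ ((k : ℝ) ^ 2 + ε)) ∧
    (∀ k : ℝ, 1400 * (K0 : ℝ) ^ 3 / ε < k → ∃ δ : ℝ, 0 < δ ∧ ∃ᶠ T : ℝ in atTop, T ^ (1 + δ) <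
      ∫ t in (1 : ℝ)..T, ‖ff α W' (1 / 2 + t * Complex.I)‖ ^ (2 * k)) := by
  have := Pool.Agent.H41.BC.PP_prob H
  have hK1 : (1 : ℝ) ≤ K0 := by exact_mod_cast hK
  have hK31 : (1 : ℝ) ≤ (K0 : ℝ) ^ 3 := one_le_pow₀ hK1
  set θ : ℝ := ε / (700 * (K0 : ℝ) ^ 3) with hθd
  have hθ : 0 < θ := by positivity
  have hθK : 700 * (K0 : ℝ) ^ 3 * θ = ε := by rw [hθd]; field_simp
  have hθ1 : θ ≤ 1 := by nlinarith
  obtain ⟨a, M, S⟩ := exists_sca H hθ hθ1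
  have hxa : ∀ i, α 0 ≤ 6 * α (a i) := fun i => by
    have h1 := H.alpha_mono.monotone (Nat.zero_le (a i))
    have h2 := H.four_le (a i)
    linarith
  choose N hN1 hN2 _ using fun i => Pool.Agent.H41.KS.first H (hxa i)
  obtain ⟨Nj, hNj⟩ := Pool.Agent.H41.KS.exists_N H
  obtain ⟨κ, hκ⟩ := Pool.Agent.H41.KS.kap H
  obtain ⟨C, hC0, hCae⟩ := bb_ae H a M N
  have h1 : ∀ᵐ W ∂(Pr α), ∀ K : ℕ, Tendsto (fun j => XX K α Nj j W) atTop (𝓝 0) :=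
    ae_all_iff.2 fun K => Pool.Agent.H41.KS.xx_ae K H hNj
  obtain ⟨W, ⟨⟨hW, c, hc, hq, hcount⟩, hX⟩, hB⟩ := (((Pool.Agent.H41.KS.as_ae2 H).and h1).and hCae).exists
  have hW' := wm_cell H S hW
  have hthin : ∀ σ : ℝ, 1 / 2 < σ → Summable (Set.indicator {n | W n ≠ WM α a M W n} fun n => Real.exp (-(σ * α n))) :=
    fun σ hσ => wm_thin H S W hσ
  have hm : ∀ K : ℕ, ∃ C : ℝ, 0 < C ∧
      Tendsto (fun T : ℝ => (∫ t in (1 : ℝ)..T, ‖ff α W (1 / 2 + t * Complex.I)‖ ^ (2 * (K + 1))) /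
        (T * Real.log T ^ ((K + 1) ^ 2))) atTop (𝓝 C) := fun K => by
    obtain ⟨A, hA, _, hA2⟩ := Pool.Agent.H41.KS.moments K H hκ hW hc hq hNj (hX K)
    exact ⟨_, by positivity, hA2⟩
  refine ⟨WM α a M W, hW', num_mod H hW hW' ⟨c, hc, hcount⟩ hthin, fun k hk hk0 => ?_, fun k hk => ?_⟩
  · have hk1 : (1 : ℝ) ≤ k := by exact_mod_cast hk
    have hkK : (k : ℝ) ≤ K0 := by exact_mod_cast hk0
    have hk3 : (k : ℝ) ^ 3 ≤ (K0 : ℝ) ^ 3 := pow_le_pow_left₀ (by linarith) hkK 3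
    have hkk3 : (k : ℝ) ≤ (k : ℝ) ^ 3 := le_self_pow₀ hk1 (by norm_num)
    have hkt : (k : ℝ) ^ 3 * θ ≤ ε / 700 := by
      have := mul_le_mul_of_nonneg_right hk3 hθ.le
      linarith
    have hkt1 : (k : ℝ) * θ ≤ (k : ℝ) ^ 3 * θ := mul_le_mul_of_nonneg_right hkk3 hθ.le
    obtain ⟨C₁, hC₁, hm1⟩ := hm (k - 1)
    obtain ⟨C₂, hC₂, hm2⟩ := hm (2 * k - 1)
    have e1 : k - 1 + 1 = k := by omega
    have e2' : 2 * k - 1 + 1 = 2 * k := by omega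
    have e3 : 2 * (2 * k) = 4 * k := by ring
    have e4 : (2 * k) ^ 2 = 4 * k ^ 2 := by ring
    rw [e1] at hm1
    rw [e2', e3, e4] at hm2
    exact two_sided H S hθ hθ1 hk (by linarith) hW hC₁ hm1 hm2 (by linarith)
  · have hk0 : 0 < k := lt_of_le_of_lt (by positivity) hk
    have hkθ : 2 < k * θ := by
      rw [div_lt_iff₀ hε] at hk
      have h3 : 1400 * (K0 : ℝ) ^ 3 * θ < k * ε * θ := mul_lt_mul_of_pos_right hk hθ
      have h4 : 1400 * (K0 : ℝ) ^ 3 * θ = 2 * ε := by linarith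
      rw [h4] at h3
      by_contra h5
      push Not at h5
      have h6 : k * ε * θ = (k * θ) * ε := by ring
      rw [h6] at h3
      have := mul_le_mul_of_nonneg_right h5 hε.le
      linarith
    obtain ⟨D, hD0, hD⟩ := mom_bound H S (fun i => ⟨hN1 i, hN2 i⟩) hW hC0 hB
    obtain ⟨δ, hδ, η, hη, hg⟩ := growth H S hD0 hC0 hk0 hkθ
    have hT : Tendsto (fun i => 2 * Tc α a i) atTop atTop := by
      have h2 : Tendsto (fun i => Tc α a i) atTop atTop := by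
        have hxT : Tendsto (fun i => 2 * α (a i)) atTop atTop := by
          refine tendsto_atTop_mono (fun i => ?_) tendsto_natCast_atTop_atTop
          have h3 := S.large i
          have h4 : (0:ℝ) ≤ i := Nat.cast_nonneg i
          linarith
        exact Real.tendsto_exp_atTop.comp hxT
      exact h2.const_mul_atTop (by norm_num)
    have hev : ∀ᶠ i : ℕ in atTop, (2 * Tc α a i) ^ (1 + δ) <
        ∫ t in (1 : ℝ)..(2 * Tc α a i), ‖ff α (WM α a M W) (1 / 2 + t * Complex.I)‖ ^ (2 * k) := by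
      filter_upwards [hD η hη k hk0, hg] with i h1 h2 using h2.trans_le h1
    exact ⟨δ, hδ, hT.frequently hev.frequently⟩

end Pool.Agent.H41.KT
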