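import Pool.Agent.H41.KT.Defs
import Pool.Agent.H41.KS.Len

/-! # Project KT, stub KT-SC: existence of the sparse scales (helper26, after KG/Sc.lean by helper10; `sparse` strengthened by helper41) -/

set_option autoImplicit false

open MeasureTheory Filter Topology Set

namespace Pool.Agent.H41.KT

open Pool.Agent.H41.KS (Cl zz)
open Pool.Agent.H41.KG (blk)

namespace ScAux

/-- two bounds for large `x` -/
def SQ (θ x : ℝ) : Prop :=
  1 ≤ θ * x * Real.exp (x / 2) ∧ (θ * x * Real.exp (x / 2) + 1) * (2 * (x + 1) * Real.exp (-x)) ≤ 1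

lemma sq_ev {θ : ℝ} (hθ : 0 < θ) (hθ1 : θ ≤ 1) : ∀ᶠ x : ℝ in atTop, SQ θ x := by
  have e1 : Tendsto (fun x : ℝ => x ^ 2 * Real.exp (-((1 / 2 : ℝ) * x))) atTop (𝓝 0) := by
    have h := tendsto_rpow_mul_exp_neg_mul_atTop_nhds_zero ((2 : ℕ) : ℝ) (1 / 2) (by norm_num)
    refine h.congr fun x => ?_
    rw [Real.rpow_natCast, neg_mul]
  have hlt2 : ∀ᶠ x : ℝ in atTop, x ^ 2 * Real.exp (-((1 / 2 : ℝ) * x)) ≤ 1 / 16 :=
    e1.eventually (ge_mem_nhds (by norm_num))
  filter_upwards [hlt2, eventually_ge_atTop (1 : ℝ), eventually_ge_atTop (1 / θ)] with x h2 hx hxθ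
  have h3 : 1 ≤ θ * x := by
    rw [div_le_iff₀ hθ] at hxθ
    linarith
  have h4 : 1 ≤ Real.exp (x / 2) := Real.one_le_exp (by linarith)
  have h5 : 1 ≤ θ * x * Real.exp (x / 2) := one_le_mul_of_one_le_of_one_le h3 h4
  refine ⟨h5, ?_⟩
  have h6 : θ * x * Real.exp (x / 2) + 1 ≤ 2 * (x * Real.exp (x / 2)) := by
    have : θ * (x * Real.exp (x / 2)) ≤ 1 * (x * Real.exp (x / 2)) :=
      mul_le_mul_of_nonneg_right hθ1 (by positivity)
    nlinarith
  have h8 : Real.exp (x / 2) * Real.exp (-x) = Real.exp (-((1 / 2 : ℝ) * x)) := by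
    rw [← Real.exp_add]
    congr 1
    ring
  calc (θ * x * Real.exp (x / 2) + 1) * (2 * (x + 1) * Real.exp (-x))
      ≤ 2 * (x * Real.exp (x / 2)) * (2 * (x + 1) * Real.exp (-x)) :=
        mul_le_mul_of_nonneg_right h6 (by positivity)
    _ = 4 * (x + 1) * x * Real.exp (-((1 / 2 : ℝ) * x)) := by rw [← h8]; ring
    _ ≤ 4 * (x + x) * x * Real.exp (-((1 / 2 : ℝ) * x)) := by gcongr
    _ = 8 * (x ^ 2 * Real.exp (-((1 / 2 : ℝ) * x))) := by ring
    _ ≤ 1 := by linarith

/-- the number of the cells of a block -/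
noncomputable def mq (α : ℕ → ℝ) (θ : ℝ) (a : ℕ) : ℕ := ⌈θ * α a * Real.exp (α a / 2)⌉₊

lemma mq_ge (α : ℕ → ℝ) (θ : ℝ) (a : ℕ) : θ * α a * Real.exp (α a / 2) ≤ mq α θ a := Nat.le_ceil _

lemma mq_le {α : ℕ → ℝ} (H : Cl α) {θ : ℝ} (hθ : 0 < θ) (a : ℕ) :
    (mq α θ a : ℝ) ≤ θ * α a * Real.exp (α a / 2) + 1 := by
  have h4 := H.four_le a
  exact (Nat.ceil_lt_add_one (by positivity)).le

lemma top_aux {α : ℕ → ℝ} (H : Cl α) {θ : ℝ} (hθ : 0 < θ) (a : ℕ) (hP : SQ θ (α a)) :
    α (a + mq α θ a) ≤ α a + 1 := by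
  set x := α a with hx
  have h4 : 4 ≤ x := H.four_le a
  set δ : ℝ := 2 * (x + 1) * Real.exp (-x) with hδ
  have hδ0 : 0 ≤ δ := by positivity
  have hM : (mq α θ a : ℝ) * δ ≤ 1 :=
    (mul_le_mul_of_nonneg_right (mq_le H hθ a) hδ0).trans hP.2
  have key : ∀ m : ℕ, m ≤ mq α θ a → α (a + m) ≤ x + m * δ := by
    intro m
    induction m with
    | zero => intro _; simp [hx]
    | succ m ih =>
      intro hm
      have h1 := ih (by omega)
      have hmM : (m : ℝ) ≤ mq α θ a := by exact_mod_cast (by omega : m ≤ mq α θ a)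
      have h2 : α (a + m) ≤ x + 1 := h1.trans (by nlinarith)
      have h3 : x ≤ α (a + m) := by rw [hx]; exact H.alpha_mono.monotone (by omega)
      have h5 := KS.len H (a + m)
      have h6 : 2 * α (a + m) * Real.exp (-α (a + m)) ≤ δ := by
        rw [hδ]
        have h7 : Real.exp (-α (a + m)) ≤ Real.exp (-x) := Real.exp_le_exp.2 (by linarith)
        have h8 : 0 ≤ Real.exp (-α (a + m)) := (Real.exp_pos _).le
        calc 2 * α (a + m) * Real.exp (-α (a + m)) ≤ 2 * (x + 1) * Real.exp (-α (a + m)) :=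
              mul_le_mul_of_nonneg_right (by linarith) h8
          _ ≤ 2 * (x + 1) * Real.exp (-x) := mul_le_mul_of_nonneg_left h7 (by linarith)
      have h9 : a + (m + 1) = a + m + 1 := by omega
      rw [h9]
      push_cast
      linarith
  have h := key _ le_rfl
  linarith

/-- the lower bound for the next scale -/
noncomputable def bb (α : ℕ → ℝ) (θ : ℝ) (i : ℕ) (s : ℕ × ℕ × ℝ) : ℝ :=
  max (6 * α s.1 + 10) (max (((s.2.1 + mq α θ s.1 : ℕ) : ℝ) ^ 2)
    (max (Real.exp (s.2.2 + α s.1)) (max (((i : ℝ) + 2) ^ 4) ((i : ℝ) + 11))))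

end ScAux

open ScAux

theorem exists_sca {α : ℕ → ℝ} (H : Cl α) {θ : ℝ} (hθ : 0 < θ) (hθ1 : θ ≤ 1) : ∃ a M : ℕ → ℕ, Sca α θ a M := by
  have key : ∀ (b : ℕ) (y : ℝ), ∃ a' : ℕ, SQ θ (α a') ∧ y ≤ α a' ∧ b ≤ a' := by
    intro b y
    have h := ((H.tendsto.eventually (sq_ev hθ hθ1)).and
      ((H.tendsto.eventually_ge_atTop y).and (eventually_ge_atTop b))).exists
    obtain ⟨a', h1, h2, h3⟩ := h
    exact ⟨a', h1, h2, h3⟩
  choose F hF1 hF2 hF3 using key
  let st : ℕ → ℕ × ℕ × ℝ := fun i => Nat.rec (motive := fun _ => ℕ × ℕ × ℝ) (F 0 10, 0, 0)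
    (fun i s => (F (s.1 + mq α θ s.1) (bb α θ i s), s.2.1 + mq α θ s.1, s.2.2 + α s.1)) i
  have st0 : st 0 = (F 0 10, 0, 0) := rfl
  have sts : ∀ i, st (i + 1) = (F ((st i).1 + mq α θ (st i).1) (bb α θ i (st i)),
      (st i).2.1 + mq α θ (st i).1, (st i).2.2 + α (st i).1) := fun i => rfl
  set a : ℕ → ℕ := fun i => (st i).1 with ha
  set M : ℕ → ℕ := fun i => mq α θ (a i) with hM
  have hS : ∀ i, (st i).2.1 = ∑ l ∈ Finset.range i, M l := by
    intro i
    induction i with
    | zero => rw [st0]; simp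
    | succ i ih => rw [sts, Finset.sum_range_succ, ← ih]
  have hA : ∀ i, (st i).2.2 = ∑ l ∈ Finset.range i, α (a l) := by
    intro i
    induction i with
    | zero => rw [st0]; simp
    | succ i ih => rw [sts, Finset.sum_range_succ, ← ih]
  have hmax : ∀ i, bb α θ i (st i) ≤ α (a (i + 1)) := by
    intro i
    have : a (i + 1) = F (a i + M i) (bb α θ i (st i)) := by
      simp only [ha, sts, hM]
    rw [this]
    exact hF2 _ _
  have hb1 : ∀ i, 6 * α (a i) + 10 ≤ α (a (i + 1)) := fun i => (le_max_left _ _).trans (hmax i)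
  have hb2 : ∀ i, (((st i).2.1 + M i : ℕ) : ℝ) ^ 2 ≤ α (a (i + 1)) := fun i =>
    (le_max_left _ _).trans ((le_max_right _ _).trans (hmax i))
  have hb3 : ∀ i : ℕ, Real.exp ((st i).2.2 + α (a i)) ≤ α (a (i + 1)) := fun i =>
    (le_max_left _ _).trans ((le_max_right _ _).trans ((le_max_right _ _).trans (hmax i)))
  have hb4 : ∀ i : ℕ, ((i : ℝ) + 2) ^ 4 ≤ α (a (i + 1)) := fun i =>
    (le_max_left _ _).trans ((le_max_right _ _).trans ((le_max_right _ _).trans ((le_max_right _ _).trans (hmax i))))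
  have hb5 : ∀ i : ℕ, (i : ℝ) + 11 ≤ α (a (i + 1)) := fun i =>
    (le_max_right _ _).trans ((le_max_right _ _).trans ((le_max_right _ _).trans ((le_max_right _ _).trans (hmax i))))
  have hP : ∀ i, SQ θ (α (a i)) := by
    intro i
    cases i with
    | zero => exact hF1 _ _
    | succ i => exact hF1 _ _
  have h10 : (10 : ℝ) ≤ α (a 0) := hF2 0 10
  have hlarge : ∀ i : ℕ, (i : ℝ) + 10 ≤ α (a i) := by
    intro i
    cases i with
    | zero => simpa using h10
    | succ i =>
      have := hb5 i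
      push_cast
      linarith
  have hMle : ∀ i, (M i : ℝ) ≤ 2 * θ * α (a i) * Real.exp (α (a i) / 2) := by
    intro i
    have h1 := mq_le H hθ (a i)
    have h2 := (hP i).1
    calc (M i : ℝ) ≤ θ * α (a i) * Real.exp (α (a i) / 2) + 1 := h1
      _ ≤ _ := by nlinarith
  refine ⟨a, M, ?_, ?_, ?_, ?_, ?_, ?_, ?_, ?_, ?_, ?_⟩
  · exact hlarge
  · intro i
    cases i with
    | zero => simpa using (by linarith : (1 : ℝ) ≤ α (a 0))
    | succ i =>
      have := hb4 i
      push_cast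
      have e : (i : ℝ) + 1 + 1 = i + 2 := by ring
      rw [e]
      exact this
  · exact fun i => mq_ge α θ (a i)
  · exact hMle
  · exact hb1
  · exact fun i => hF3 _ _
  · intro i
    cases i with
    | zero => simpa using (by linarith : (0 : ℝ) ≤ α (a 0))
    | succ i =>
      have h1 := hb2 i
      rw [hS i] at h1
      rw [Finset.sum_range_succ]
      push_cast at h1
      exact h1
  · intro i
    cases i with
    | zero => simpa using Real.log_nonneg (by linarith : (1 : ℝ) ≤ α (a 0))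
    | succ i =>
      have h1 := hb3 i
      rw [hA i] at h1
      rw [Finset.sum_range_succ]
      exact (Real.le_log_iff_exp_le (by linarith [H.four_le (a (i + 1))])).2 h1
  · exact fun i => top_aux H hθ (a i) (hP i)
  · intro σ hσ
    set c := (σ - 1 / 2) / 2 with hc'
    have hc : 0 < c := by rw [hc']; linarith
    have hsum : Summable fun i : ℕ => 2 / c * Real.exp (-c) ^ i := by
      refine Summable.mul_left _ (summable_geometric_of_lt_one (Real.exp_pos _).le ?_)
      rw [Real.exp_lt_one_iff]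
      linarith
    refine hsum.of_nonneg_of_le (fun i => by positivity) fun i => ?_
    have hx := hlarge i
    set x := α (a i) with hxx
    have hx0 : 0 < x := by have := H.four_le (a i); linarith
    have h1 : c * x ≤ Real.exp (c * x) := by linarith [Real.add_one_le_exp (c * x)]
    have h2 : x ≤ 1 / c * Real.exp (c * x) := by
      rw [one_div, inv_mul_eq_div, le_div_iff₀ hc]
      linarith
    calc (M i : ℝ) * Real.exp (-(σ * x)) ≤ 2 * θ * x * Real.exp (x / 2) * Real.exp (-(σ * x)) :=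
          mul_le_mul_of_nonneg_right (hMle i) (Real.exp_pos _).le
      _ = 2 * θ * x * Real.exp (-(2 * c * x)) := by
          rw [mul_assoc, ← Real.exp_add]
          congr 2
          rw [hc']; ring
      _ ≤ 2 * 1 * (1 / c * Real.exp (c * x)) * Real.exp (-(2 * c * x)) := by gcongr
      _ = 2 / c * Real.exp (-(c * x)) := by
          have e1 : Real.exp (c * x) * Real.exp (-(2 * c * x)) = Real.exp (-(c * x)) := by
            rw [← Real.exp_add]; congr 1; ring
          rw [← e1]; ring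
      _ ≤ 2 / c * Real.exp (-c) ^ i := by
          refine mul_le_mul_of_nonneg_left ?_ (by positivity)
          rw [← Real.exp_nat_mul]
          refine Real.exp_le_exp.2 ?_
          nlinarith

end Pool.Agent.H41.KT
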