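import Pool.Agent.H41.KT.Defs
import Pool.Agent.H41.KS.Len

/-! # Project KT, stub KT-XB1: pointwise bound (helper92) -/

set_option autoImplicit false

open MeasureTheory Filter Topology Set

namespace Pool.Agent.H41.KT

open Pool.Agent.H41.KS (Cl zz)
open Pool.Agent.H41.KG (blk hh Tc tc et WM)

theorem xbp_mono {x y : ℝ} (hx : 1 ≤ x) (hxy : x ≤ y) : y * Real.exp (-y) ≤ x * Real.exp (-x) := by
  have h1 : y ≤ x * Real.exp (y - x) := by
    have h2 := Real.add_one_le_exp (y - x)
    nlinarith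
  calc y * Real.exp (-y) ≤ x * Real.exp (y - x) * Real.exp (-y) :=
        mul_le_mul_of_nonneg_right h1 (Real.exp_pos _).le
    _ = x * Real.exp (-x) := by
        rw [mul_assoc, ← Real.exp_add]
        congr 2
        ring

theorem xbp_lip {x t : ℝ} (hx : 4 ≤ x) (ht : 0 ≤ t) {v w : ℝ} (hv : x ≤ v) (hw : x ≤ w) :
    ‖zz t w - zz t v‖ ≤ (1 / 2 + t) * Real.exp (-(x / 2)) * |w - v| := by
  have e : ∀ u : ℝ, x ≤ u → zz t u = Complex.exp (-((1 / 2 + t * Complex.I) * (u : ℂ))) := by
    intro u hu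
    unfold zz
    rw [max_eq_left (by linarith)]
  rw [e v hv, e w hw, ← Real.norm_eq_abs]
  have hd : ∀ u ∈ Set.Ici x, HasDerivWithinAt
      (fun u : ℝ => Complex.exp (-((1 / 2 + t * Complex.I) * (u : ℂ))))
      (Complex.exp (-((1 / 2 + t * Complex.I) * (u : ℂ))) * (-(1 / 2 + t * Complex.I))) (Set.Ici x) u := by
    intro u _
    have h1 : HasDerivAt (fun u : ℝ => -((1 / 2 + t * Complex.I) * (u : ℂ))) (-(1 / 2 + t * Complex.I)) u := by
      have := ((Complex.ofRealCLM.hasDerivAt (x := u)).const_mul (1 / 2 + t * Complex.I)).neg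
      refine this.congr_deriv ?_
      simp
    exact h1.cexp.hasDerivWithinAt
  have hb : ∀ u ∈ Set.Ici x, ‖Complex.exp (-((1 / 2 + t * Complex.I) * (u : ℂ))) * (-(1 / 2 + t * Complex.I))‖ ≤
      (1 / 2 + t) * Real.exp (-(x / 2)) := by
    intro u hu
    have hu' : x ≤ u := hu
    rw [norm_mul, Complex.norm_exp, norm_neg, mul_comm]
    refine mul_le_mul ?_ (Real.exp_le_exp.2 ?_) (Real.exp_pos _).le (by positivity)
    · refine (norm_add_le _ _).trans ?_
      rw [norm_mul, Complex.norm_I, mul_one, Complex.norm_real, Real.norm_eq_abs, abs_of_nonneg ht]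
      norm_num
    · have : (-((1 / 2 + t * Complex.I) * (u : ℂ))).re = -(u / 2) := by
        simp
        ring
      rw [this]
      linarith
  exact Convex.norm_image_sub_le_of_norm_hasDerivWithin_le hd hb (convex_Ici x) hv hw

theorem xb_pt {α : ℕ → ℝ} (H : Cl α) {a M : ℕ} (ha : 10 ≤ α a) (ht : α (a + M) ≤ α a + 1)
    (hM : (M : ℝ) ≤ 2 * α a * Real.exp (α a / 2)) {W W' : ℕ → ℝ} (hW : ∀ n, W n ∈ Ioc (α n) (α (n + 1)))
    (hW' : ∀ n, W' n ∈ Ioc (α n) (α (n + 1))) {t : ℝ} (h1 : 1 ≤ t) :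
    |XB (Finset.Ico a (a + M)) W W' t| ≤ 6 * (α a ^ 2 * t * Real.exp (-α a)) := by
  have hterm : ∀ n ∈ Finset.Ico a (a + M), |(zz t (W' n)).re - (zz t (W n)).re| ≤
      (1 / 2 + t) * Real.exp (-(α a / 2)) * (2 * (α a * Real.exp (-α a))) := by
    intro n hn
    have hna := (Finset.mem_Ico.1 hn).1
    have hmono : α a ≤ α n := KS.len_al_le H hna
    have hw := hW n
    have hw' := hW' n
    have h2 : (zz t (W' n)).re - (zz t (W n)).re = (zz t (W' n) - zz t (W n)).re := by
      rw [Complex.sub_re]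
    rw [h2]
    refine (Complex.abs_re_le_norm _).trans ?_
    refine (xbp_lip (x := α a) (by linarith) (by linarith) (by linarith [hw.1]) (by linarith [hw'.1])).trans ?_
    refine mul_le_mul_of_nonneg_left ?_ (by positivity)
    have h3 := KS.len H n
    have h4 := xbp_mono (by linarith) hmono
    have h5 : |W' n - W n| ≤ α (n + 1) - α n := by
      rw [abs_le]
      constructor <;> linarith [hw.1, hw.2, hw'.1, hw'.2]
    linarith
  have h6 : |XB (Finset.Ico a (a + M)) W W' t| ≤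
      M * ((1 / 2 + t) * Real.exp (-(α a / 2)) * (2 * (α a * Real.exp (-α a)))) := by
    unfold XB
    refine (Finset.abs_sum_le_sum_abs _ _).trans ((Finset.sum_le_sum hterm).trans (le_of_eq ?_))
    rw [Finset.sum_const, Nat.card_Ico, nsmul_eq_mul, Nat.add_sub_cancel_left]
  refine h6.trans ?_
  have h7 : 0 ≤ (1 / 2 + t) * Real.exp (-(α a / 2)) * (2 * (α a * Real.exp (-α a))) := by
    have : 0 ≤ α a := by linarith
    positivity
  refine (mul_le_mul_of_nonneg_right hM h7).trans ?_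
  have h8 : Real.exp (α a / 2) * Real.exp (-(α a / 2)) = 1 := by
    rw [← Real.exp_add, add_neg_cancel, Real.exp_zero]
  have h9 : 2 * α a * Real.exp (α a / 2) *
      ((1 / 2 + t) * Real.exp (-(α a / 2)) * (2 * (α a * Real.exp (-α a)))) =
      (Real.exp (α a / 2) * Real.exp (-(α a / 2))) * (4 * (1 / 2 + t) * (α a ^ 2 * Real.exp (-α a))) := by ring
  rw [h9, h8, one_mul]
  have h10 : 0 ≤ α a ^ 2 * Real.exp (-α a) := by positivity
  nlinarith

end Pool.Agent.H41.KT
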